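import Mathlib

set_option autoImplicit false

/-!
Basic set-up for the counterexample: `S = F_2[a,b,c,x,y]`, the prime `P = (x,y)`,
the `(x,y)`-degree expansion and the evaluations at the three points of the projective line.
-/

namespace Pool.Agent.P0d2d15

open MvPolynomial

noncomputable section

/-- The polynomial ring in five variables `a,b,c,x,y` over the field with two elements. -/
abbrev S : Type := MvPolynomial (Fin 5) (ZMod 2)

abbrev va : S := X 0
abbrev vb : S := X 1
abbrev vc : S := X 2
abbrev vx : S := X 3
abbrev vy : S := X 4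

abbrev vd : S := vb ^ 2 + va * vc

/-- The prime ideal `(x,y)`. -/
def P : Ideal S := Ideal.span {vx, vy}

/-- `x,y ↦ 0`. -/
def rho : S →ₐ[ZMod 2] S := aeval ![va, vb, vc, 0, 0]

/-- `x ↦ xT, y ↦ yT`. -/
def theta : S →ₐ[ZMod 2] Polynomial S :=
  aeval ![Polynomial.C va, Polynomial.C vb, Polynomial.C vc,
    Polynomial.C vx * Polynomial.X, Polynomial.C vy * Polynomial.X]

/-- `x ↦ pT, y ↦ qT`. -/
def ev (p q : S) : S →ₐ[ZMod 2] Polynomial S :=
  aeval ![Polynomial.C va, Polynomial.C vb, Polynomial.C vc,
    Polynomial.C p * Polynomial.X, Polynomial.C q * Polynomial.X]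

/-- the `n`-th coefficient of `ev`. -/
def val (p q : S) (n : ℕ) (F : S) : S := (ev p q F).coeff n

lemma two_eq_zero : (2 : S) = 0 := CharP.cast_eq_zero S 2

lemma add_self (z : S) : z + z = 0 := by
  rw [← two_mul, two_eq_zero, zero_mul]

lemma neg_eq (z : S) : -z = z := by
  rw [neg_eq_iff_add_eq_zero, add_self]

lemma sub_eq (z w : S) : z - w = z + w := by
  rw [sub_eq_add_neg, neg_eq]

@[simp] lemma rho_a : rho va = va := by simp [rho]
@[simp] lemma rho_b : rho vb = vb := by simp [rho]
@[simp] lemma rho_c : rho vc = vc := by simp [rho]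
@[simp] lemma rho_x : rho vx = 0 := by simp [rho]
@[simp] lemma rho_y : rho vy = 0 := by simp [rho]

@[simp] lemma ev_a (p q : S) : ev p q va = Polynomial.C va := by simp [ev]
@[simp] lemma ev_b (p q : S) : ev p q vb = Polynomial.C vb := by simp [ev]
@[simp] lemma ev_c (p q : S) : ev p q vc = Polynomial.C vc := by simp [ev]
@[simp] lemma ev_x (p q : S) : ev p q vx = Polynomial.C p * Polynomial.X := by simp [ev]
@[simp] lemma ev_y (p q : S) : ev p q vy = Polynomial.C q * Polynomial.X := by simp [ev]

@[simp] lemma theta_a : theta va = Polynomial.C va := by simp [theta]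
@[simp] lemma theta_b : theta vb = Polynomial.C vb := by simp [theta]
@[simp] lemma theta_c : theta vc = Polynomial.C vc := by simp [theta]
@[simp] lemma theta_x : theta vx = Polynomial.C vx * Polynomial.X := by simp [theta]
@[simp] lemma theta_y : theta vy = Polynomial.C vy * Polynomial.X := by simp [theta]

lemma theta_mem (F : S) : theta F ∈ reesAlgebra P := by
  induction F using MvPolynomial.induction_on with
  | C r =>
    have : theta (C r) = algebraMap S (Polynomial S) (C r) := by
      rw [show (C r : S) = algebraMap (ZMod 2) S r from rfl, AlgHom.commutes]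
      rfl
    rw [this]
    exact Subalgebra.algebraMap_mem _ _
  | add p q hp hq => rw [map_add]; exact add_mem hp hq
  | mul_X p i hp =>
    rw [map_mul]
    refine mul_mem hp ?_
    have hx : vx ∈ P := Ideal.subset_span (by simp)
    have hy : vy ∈ P := Ideal.subset_span (by simp)
    fin_cases i
    · show theta va ∈ _
      rw [theta_a]; exact Subalgebra.algebraMap_mem _ _
    · show theta vb ∈ _
      rw [theta_b]; exact Subalgebra.algebraMap_mem _ _
    · show theta vc ∈ _
      rw [theta_c]; exact Subalgebra.algebraMap_mem _ _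
    · show theta vx ∈ _
      rw [theta_x, mem_reesAlgebra_iff]
      intro j
      rw [Polynomial.coeff_C_mul, Polynomial.coeff_X]
      split_ifs with h
      · subst h; simpa using hx
      · simp
    · show theta vy ∈ _
      rw [theta_y, mem_reesAlgebra_iff]
      intro j
      rw [Polynomial.coeff_C_mul, Polynomial.coeff_X]
      split_ifs with h
      · subst h; simpa using hy
      · simp

lemma theta_coeff_mem (F : S) (j : ℕ) : (theta F).coeff j ∈ P ^ j :=
  (mem_reesAlgebra_iff P _).1 (theta_mem F) j

lemma eval_theta (F : S) : (theta F).eval 1 = F := by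
  have h : ((Polynomial.evalRingHom (1 : S)).comp (theta : S →+* Polynomial S)) = RingHom.id S := by
    apply MvPolynomial.ringHom_ext
    · intro r
      simp
    · intro i
      fin_cases i
      · show (theta va).eval 1 = va
        simp
      · show (theta vb).eval 1 = vb
        simp
      · show (theta vc).eval 1 = vc
        simp
      · show (theta vx).eval 1 = vx
        simp
      · show (theta vy).eval 1 = vy
        simp
  exact congrArg (fun f => f F) (congrArg DFunLike.coe h)

lemma mem_P_pow_iff (F : S) (n : ℕ) : F ∈ P ^ n ↔ Polynomial.X ^ n ∣ theta F := by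
  constructor
  · intro h
    have h1 : (P ^ n).map (theta : S →+* Polynomial S) ≤ Ideal.span {Polynomial.X ^ n} := by
      rw [Ideal.map_pow, ← Ideal.span_singleton_pow]
      apply Ideal.pow_right_mono
      rw [P, Ideal.map_span, Ideal.span_le]
      rintro z ⟨w, hw, rfl⟩
      rcases hw with rfl | rfl
      · show theta vx ∈ Ideal.span _
        rw [theta_x]
        exact Ideal.mem_span_singleton.2 (Dvd.intro_left _ rfl)
      · show theta vy ∈ Ideal.span _
        rw [theta_y]
        exact Ideal.mem_span_singleton.2 (Dvd.intro_left _ rfl)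
    exact Ideal.mem_span_singleton.1 (h1 (Ideal.mem_map_of_mem _ h))
  · intro h
    rw [Polynomial.X_pow_dvd_iff] at h
    rw [← eval_theta F, Polynomial.eval_eq_sum_range]
    refine Ideal.sum_mem _ ?_
    intro j _
    rw [one_pow, mul_one]
    by_cases hj : j < n
    · rw [h j hj]; exact Ideal.zero_mem _
    · exact Ideal.pow_le_pow_right (not_lt.1 hj) (theta_coeff_mem F j)

lemma primary (s F : S) (n : ℕ) (hs : s ∉ P) (h : s * F ∈ P ^ n) : F ∈ P ^ n := by
  rw [mem_P_pow_iff, map_mul] at h
  rw [mem_P_pow_iff]
  refine Polynomial.prime_X.pow_dvd_of_dvd_mul_left n ?_ h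
  intro h'
  apply hs
  have := (mem_P_pow_iff s 1).2 (by simpa using h')
  simpa using this

lemma theta_coeff_zero (F : S) : (theta F).coeff 0 = rho F := by
  have h : ((Polynomial.constantCoeff).comp (theta : S →+* Polynomial S)) = (rho : S →+* S) := by
    apply MvPolynomial.ringHom_ext
    · intro r
      simp
    · intro i
      fin_cases i
      · show (theta va).coeff 0 = rho va
        simp
      · show (theta vb).coeff 0 = rho vb
        simp
      · show (theta vc).coeff 0 = rho vc
        simp
      · show (theta vx).coeff 0 = rho vx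
        simp
      · show (theta vy).coeff 0 = rho vy
        simp
  exact congrArg (fun f => f F) (congrArg DFunLike.coe h)

lemma mem_P_iff (F : S) : F ∈ P ↔ rho F = 0 := by
  rw [← theta_coeff_zero, ← Polynomial.X_dvd_iff]
  have := mem_P_pow_iff F 1
  simpa using this

instance P_prime : P.IsPrime := by
  constructor
  · rw [Ideal.ne_top_iff_one, mem_P_iff]
    simp
  · intro s F h
    rw [mem_P_iff, map_mul, mul_eq_zero] at h
    rw [mem_P_iff, mem_P_iff]
    exact h

lemma hx : vx ∈ P := Ideal.subset_span (by simp)
lemma hy : vy ∈ P := Ideal.subset_span (by simp)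

lemma val_add (p q : S) (n : ℕ) (F G : S) : val p q n (F + G) = val p q n F + val p q n G := by
  simp [val]

lemma val_zero (p q : S) (n : ℕ) : val p q n 0 = 0 := by
  simp [val]

lemma val_a_mul (p q : S) (n : ℕ) (F : S) : val p q n (va * F) = va * val p q n F := by
  rw [val, map_mul, ev_a, Polynomial.coeff_C_mul, val]

lemma val_b_mul (p q : S) (n : ℕ) (F : S) : val p q n (vb * F) = vb * val p q n F := by
  rw [val, map_mul, ev_b, Polynomial.coeff_C_mul, val]

lemma val_c_mul (p q : S) (n : ℕ) (F : S) : val p q n (vc * F) = vc * val p q n F := by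
  rw [val, map_mul, ev_c, Polynomial.coeff_C_mul, val]

lemma X_pow_dvd_ev (p q : S) (n : ℕ) (F : S) (h : F ∈ P ^ n) :
    Polynomial.X ^ n ∣ ev p q F := by
  have h1 : (P ^ n).map (ev p q : S →+* Polynomial S) ≤ Ideal.span {Polynomial.X ^ n} := by
    rw [Ideal.map_pow, ← Ideal.span_singleton_pow]
    apply Ideal.pow_right_mono
    rw [P, Ideal.map_span, Ideal.span_le]
    rintro z ⟨w, hw, rfl⟩
    rcases hw with rfl | rfl
    · show ev p q vx ∈ Ideal.span _
      rw [ev_x]
      exact Ideal.mem_span_singleton.2 (Dvd.intro_left _ rfl)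
    · show ev p q vy ∈ Ideal.span _
      rw [ev_y]
      exact Ideal.mem_span_singleton.2 (Dvd.intro_left _ rfl)
  exact Ideal.mem_span_singleton.1 (h1 (Ideal.mem_map_of_mem _ h))

lemma val_eq_zero (p q : S) (n j : ℕ) (F : S) (h : F ∈ P ^ n) (hj : j < n) :
    val p q j F = 0 :=
  (Polynomial.X_pow_dvd_iff.1 (X_pow_dvd_ev p q n F h)) j hj

lemma val_mul (p q : S) (m n : ℕ) (F G : S) (hF : F ∈ P ^ m) (hG : G ∈ P ^ n) :
    val p q (m + n) (F * G) = val p q m F * val p q n G ∧
    val p q (m + n + 1) (F * G) =
      val p q m F * val p q (n + 1) G + val p q (m + 1) F * val p q n G := by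
  obtain ⟨A, hA⟩ := X_pow_dvd_ev p q m F hF
  obtain ⟨B, hB⟩ := X_pow_dvd_ev p q n G hG
  have hAB : ev p q (F * G) = Polynomial.X ^ (m + n) * (A * B) := by
    rw [map_mul, hA, hB, pow_add]; ring
  have e1 : ∀ (N : ℕ) (C : Polynomial S), (Polynomial.X ^ N * C).coeff N = C.coeff 0 := by
    intro N C
    have := Polynomial.coeff_X_pow_mul C N 0
    simpa using this
  have e2 : ∀ (N : ℕ) (C : Polynomial S), (Polynomial.X ^ N * C).coeff (N + 1) = C.coeff 1 := by
    intro N C
    have := Polynomial.coeff_X_pow_mul C N 1
    rw [add_comm] at this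
    exact this
  unfold val
  rw [hAB, hA, hB, e1, e2, e1, e1, e2, e2]
  constructor
  · exact Polynomial.mul_coeff_zero A B
  · exact Polynomial.mul_coeff_one A B

lemma val_zero_eq (p q : S) (F : S) : val p q 0 F = rho F := by
  have h : ((Polynomial.constantCoeff).comp (ev p q : S →+* Polynomial S)) = (rho : S →+* S) := by
    apply MvPolynomial.ringHom_ext
    · intro r
      simp
    · intro i
      fin_cases i
      · show (ev p q va).coeff 0 = rho va
        simp
      · show (ev p q vb).coeff 0 = rho vb
        simp
      · show (ev p q vc).coeff 0 = rho vc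
        simp
      · show (ev p q vx).coeff 0 = rho vx
        simp
      · show (ev p q vy).coeff 0 = rho vy
        simp
  exact congrArg (fun f => f F) (congrArg DFunLike.coe h)

lemma rho_ev (p q : S) (hp : rho p = p) (hq : rho q = q) (F : S) :
    (ev p q F).map (rho : S →+* S) = ev p q F := by
  have h : ((Polynomial.mapRingHom (rho : S →+* S)).comp (ev p q : S →+* Polynomial S)) =
      (ev p q : S →+* Polynomial S) := by
    apply MvPolynomial.ringHom_ext
    · intro r
      show (ev p q (C r)).map (rho : S →+* S) = ev p q (C r)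
      rw [show (C r : S) = algebraMap (ZMod 2) S r from rfl, AlgHom.commutes]
      rw [IsScalarTower.algebraMap_apply (ZMod 2) S (Polynomial S)]
      simp
    · intro i
      fin_cases i
      · show (ev p q va).map (rho : S →+* S) = ev p q va
        simp
      · show (ev p q vb).map (rho : S →+* S) = ev p q vb
        simp
      · show (ev p q vc).map (rho : S →+* S) = ev p q vc
        simp
      · show (ev p q vx).map (rho : S →+* S) = ev p q vx
        simp [hp]
      · show (ev p q vy).map (rho : S →+* S) = ev p q vy
        simp [hq]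
  exact congrArg (fun f => f F) (congrArg DFunLike.coe h)

lemma rho_val (p q : S) (hp : rho p = p) (hq : rho q = q) (n : ℕ) (F : S) :
    rho (val p q n F) = val p q n F := by
  have := congrArg (fun f => Polynomial.coeff f n) (rho_ev p q hp hq F)
  simpa [Polynomial.coeff_map, val] using this

lemma val_one_sum (F : S) : val 1 0 1 F + val 0 1 1 F + val 1 1 1 F = 0 := by
  induction F using MvPolynomial.induction_on with
  | C r =>
    have h : ∀ p q : S, val p q 1 (C r) = 0 := by
      intro p q
      rw [val, show (C r : S) = algebraMap (ZMod 2) S r from rfl, AlgHom.commutes,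
        IsScalarTower.algebraMap_apply (ZMod 2) S (Polynomial S)]
      simp
    rw [h, h, h]; simp
  | add p q hp hq =>
    rw [val_add, val_add, val_add]
    linear_combination hp + hq
  | mul_X p i hp =>
    have key : ∀ (u v : S), val u v 1 (p * X i) =
        rho p * val u v 1 (X i) + val u v 1 p * rho (X i) := by
      intro u v
      have := (val_mul u v 0 0 p (X i) (by simp) (by simp)).2
      simpa [val_zero_eq] using this
    rw [key, key, key]
    have h2 := two_eq_zero
    fin_cases i
    · have h : ∀ (u v : S), val u v 1 va = 0 := by intro u v; simp [val]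
      show rho p * val 1 0 1 va + val 1 0 1 p * rho va +
        (rho p * val 0 1 1 va + val 0 1 1 p * rho va) +
        (rho p * val 1 1 1 va + val 1 1 1 p * rho va) = 0
      rw [h, h, h]
      linear_combination rho va * hp
    · have h : ∀ (u v : S), val u v 1 vb = 0 := by intro u v; simp [val]
      show rho p * val 1 0 1 vb + val 1 0 1 p * rho vb +
        (rho p * val 0 1 1 vb + val 0 1 1 p * rho vb) +
        (rho p * val 1 1 1 vb + val 1 1 1 p * rho vb) = 0
      rw [h, h, h]
      linear_combination rho vb * hp
    · have h : ∀ (u v : S), val u v 1 vc = 0 := by intro u v; simp [val]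
      show rho p * val 1 0 1 vc + val 1 0 1 p * rho vc +
        (rho p * val 0 1 1 vc + val 0 1 1 p * rho vc) +
        (rho p * val 1 1 1 vc + val 1 1 1 p * rho vc) = 0
      rw [h, h, h]
      linear_combination rho vc * hp
    · have h : ∀ (u v : S), val u v 1 vx = u := by intro u v; simp [val]
      show rho p * val 1 0 1 vx + val 1 0 1 p * rho vx +
        (rho p * val 0 1 1 vx + val 0 1 1 p * rho vx) +
        (rho p * val 1 1 1 vx + val 1 1 1 p * rho vx) = 0
      rw [h, h, h, rho_x]
      linear_combination rho p * h2
    · have h : ∀ (u v : S), val u v 1 vy = v := by intro u v; simp [val]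
      show rho p * val 1 0 1 vy + val 1 0 1 p * rho vy +
        (rho p * val 0 1 1 vy + val 0 1 1 p * rho vy) +
        (rho p * val 1 1 1 vy + val 1 1 1 p * rho vy) = 0
      rw [h, h, h, rho_y]
      linear_combination rho p * h2

end

end Pool.Agent.P0d2d15
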