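import Mathlib

set_option autoImplicit false

/-!
General lemmas on regular sequences of length at most two on `A ⧸ I`.
-/

namespace Pool.Agent.P0d2d15

open RingTheory.Sequence
open scoped Pointwise

variable {A : Type*} [CommRing A]

lemma mk_mem_smul_top (I : Ideal A) (r z : A) :
    (Submodule.Quotient.mk z : A ⧸ I) ∈ (r • (⊤ : Submodule A (A ⧸ I))) ↔
      z ∈ I ⊔ Ideal.span {r} := by
  rw [Submodule.mem_smul_pointwise_iff_exists]
  constructor
  · rintro ⟨w, -, hw⟩
    obtain ⟨w, rfl⟩ := Submodule.Quotient.mk_surjective _ w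
    rw [← Submodule.Quotient.mk_smul, Submodule.Quotient.eq] at hw
    have h : z = -(r • w - z) + w * r := by simp only [smul_eq_mul]; ring
    rw [h]
    exact add_mem (Ideal.mem_sup_left (neg_mem hw))
      (Ideal.mem_sup_right (Ideal.mul_mem_left _ _ (Ideal.mem_span_singleton_self r)))
  · intro h
    obtain ⟨y, hy, w, hw, rfl⟩ := Submodule.mem_sup.1 h
    obtain ⟨w, rfl⟩ := Ideal.mem_span_singleton'.1 hw
    refine ⟨Submodule.Quotient.mk w, trivial, ?_⟩
    rw [← Submodule.Quotient.mk_smul, Submodule.Quotient.eq]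
    have h : r • w - (y + w * r) = -y := by simp only [smul_eq_mul]; ring
    rw [h]
    exact neg_mem hy

lemma smulRegular_iff (I : Ideal A) (r : A) :
    IsSMulRegular (A ⧸ I) r ↔ ∀ z, r * z ∈ I → z ∈ I :=
  isSMulRegular_quotient_iff_mem_of_smul_mem _ _

lemma smulRegular_quot_iff (I : Ideal A) (r s : A) :
    IsSMulRegular (QuotSMulTop r (A ⧸ I)) s ↔
      ∀ z, s * z ∈ I ⊔ Ideal.span {r} → z ∈ I ⊔ Ideal.span {r} := by
  rw [isSMulRegular_quotient_iff_mem_of_smul_mem]
  constructor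
  · intro h z hz
    rw [← mk_mem_smul_top]
    apply h
    rw [← Submodule.Quotient.mk_smul, mk_mem_smul_top]
    exact hz
  · intro h z hz
    obtain ⟨z, rfl⟩ := Submodule.Quotient.mk_surjective _ z
    rw [← Submodule.Quotient.mk_smul, mk_mem_smul_top] at hz
    rw [mk_mem_smul_top]
    exact h z hz

lemma pow_aux (I : Ideal A) (r s : A) (hr : ∀ z, r * z ∈ I → z ∈ I)
    (hs : ∀ z, s * z ∈ I ⊔ Ideal.span {r} → z ∈ I ⊔ Ideal.span {r}) (N : ℕ) :
    ∀ z, s * z ∈ I ⊔ Ideal.span {r ^ N} → z ∈ I ⊔ Ideal.span {r ^ N} := by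
  induction N with
  | zero =>
    intro z _
    rw [pow_zero, Ideal.span_singleton_one]
    simp
  | succ n ih =>
    intro z hz
    have h1 : s * z ∈ I ⊔ Ideal.span {r} := by
      refine (sup_le_sup_left ?_ I) hz
      rw [Ideal.span_singleton_le_span_singleton]
      exact Dvd.intro_left _ (by rw [pow_succ])
    obtain ⟨y, hy, w, hw, rfl⟩ := Submodule.mem_sup.1 (hs z h1)
    obtain ⟨w, rfl⟩ := Ideal.mem_span_singleton'.1 hw
    obtain ⟨y', hy', w', hw', h2⟩ := Submodule.mem_sup.1 hz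
    obtain ⟨w', rfl⟩ := Ideal.mem_span_singleton'.1 hw'
    -- `r * (s * w - r^n * w') ∈ I`
    have h3 : r * (s * w - r ^ n * w') ∈ I := by
      have : r * (s * w - r ^ n * w') = y' - s * y := by
        rw [pow_succ] at h2
        linear_combination -h2
      rw [this]
      exact sub_mem hy' (Ideal.mul_mem_left _ _ hy)
    have h4 := hr _ h3
    have h5 : s * w ∈ I ⊔ Ideal.span {r ^ n} := by
      have : s * w = (s * w - r ^ n * w') + w' * r ^ n := by ring
      rw [this]
      exact add_mem (Ideal.mem_sup_left h4)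
        (Ideal.mem_sup_right (Ideal.mul_mem_left _ _ (Ideal.mem_span_singleton_self _)))
    obtain ⟨y2, hy2, w2, hw2, h6⟩ := Submodule.mem_sup.1 (ih w h5)
    obtain ⟨w2, rfl⟩ := Ideal.mem_span_singleton'.1 hw2
    have : y + w * r = (y + y2 * r) + w2 * r ^ (n + 1) := by
      rw [← h6]; ring
    rw [this]
    exact add_mem (Ideal.mem_sup_left (add_mem hy (Ideal.mul_mem_right _ _ hy2)))
      (Ideal.mem_sup_right (Ideal.mul_mem_left _ _ (Ideal.mem_span_singleton_self _)))

/-- If `c` is regular on `A/I` and some nonzero class in `A/(I,c)` is killed by powers of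
every element of `m`, then no weakly regular sequence in `m` has length at least two. -/
lemma length_le_one (I m : Ideal A) (c F : A) (hc : ∀ z, c * z ∈ I → z ∈ I)
    (hF : F ∉ I ⊔ Ideal.span {c})
    (hm : ∀ r ∈ m, ∃ n : ℕ, r ^ n * F ∈ I ⊔ Ideal.span {c})
    (rs : List A) (hrs : ∀ r ∈ rs, r ∈ m) (hreg : IsWeaklyRegular (A ⧸ I) rs) :
    rs.length ≤ 1 := by
  rcases rs with _ | ⟨r1, _ | ⟨r2, rs⟩⟩
  · simp
  · simp
  exfalso
  rw [isWeaklyRegular_cons_iff, isWeaklyRegular_cons_iff, smulRegular_iff,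
    smulRegular_quot_iff] at hreg
  obtain ⟨h1, h2, -⟩ := hreg
  obtain ⟨n1, hn1⟩ := hm r1 (hrs r1 (by simp))
  obtain ⟨n2, hn2⟩ := hm r2 (hrs r2 (by simp))
  obtain ⟨G, hG, W, hW, e1⟩ := Submodule.mem_sup.1 hn1
  obtain ⟨H, rfl⟩ := Ideal.mem_span_singleton'.1 hW
  obtain ⟨G', hG', W', hW', e2⟩ := Submodule.mem_sup.1 hn2
  obtain ⟨H', rfl⟩ := Ideal.mem_span_singleton'.1 hW'
  have hr1 : ∀ n z, r1 ^ n * z ∈ I → z ∈ I := by
    intro n
    induction n with
    | zero => intro z hz; simpa using hz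
    | succ n ih =>
      intro z hz
      apply ih
      apply h1
      rwa [pow_succ', mul_assoc] at hz
  -- `H ∉ I + (r1 ^ n1)`
  have key1 : H ∉ I ⊔ Ideal.span {r1 ^ n1} := by
    intro hH
    obtain ⟨y, hy, w, hw, rfl⟩ := Submodule.mem_sup.1 hH
    obtain ⟨w, rfl⟩ := Ideal.mem_span_singleton'.1 hw
    apply hF
    have : r1 ^ n1 * (F - c * w) ∈ I := by
      have : r1 ^ n1 * (F - c * w) = G + c * y := by linear_combination -e1
      rw [this]
      exact add_mem hG (Ideal.mul_mem_left _ _ hy)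
    have h3 := hr1 _ _ this
    have : F = (F - c * w) + w * c := by ring
    rw [this]
    exact add_mem (Ideal.mem_sup_left h3)
      (Ideal.mem_sup_right (Ideal.mul_mem_left _ _ (Ideal.mem_span_singleton_self _)))
  -- `r2 ^ n2 * H ∈ I + (r1 ^ n1)`
  have key2 : r2 ^ n2 * H ∈ I ⊔ Ideal.span {r1 ^ n1} := by
    have h3 : c * (r2 ^ n2 * H - r1 ^ n1 * H') ∈ I := by
      have : c * (r2 ^ n2 * H - r1 ^ n1 * H') = r1 ^ n1 * G' - r2 ^ n2 * G := by
        linear_combination r2 ^ n2 * e1 - r1 ^ n1 * e2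
      rw [this]
      exact sub_mem (Ideal.mul_mem_left _ _ hG') (Ideal.mul_mem_left _ _ hG)
    have h4 := hc _ h3
    have : r2 ^ n2 * H = (r2 ^ n2 * H - r1 ^ n1 * H') + H' * r1 ^ n1 := by ring
    rw [this]
    exact add_mem (Ideal.mem_sup_left h4)
      (Ideal.mem_sup_right (Ideal.mul_mem_left _ _ (Ideal.mem_span_singleton_self _)))
  have h2' : ∀ n z, r2 ^ n * z ∈ I ⊔ Ideal.span {r1 ^ n1} → z ∈ I ⊔ Ideal.span {r1 ^ n1} := by
    intro n
    induction n with
    | zero => intro z hz; simpa using hz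
    | succ n ih =>
      intro z hz
      apply ih
      apply pow_aux I r1 r2 h1 h2 n1
      rwa [pow_succ', mul_assoc] at hz
  exact key1 (h2' n2 H key2)

/-- A criterion for a sequence of length two to be regular on `A ⧸ I`. -/
lemma isRegular_two (I : Ideal A) (c a : A) (hc : ∀ z, c * z ∈ I → z ∈ I)
    (ha : ∀ z, a * z ∈ I ⊔ Ideal.span {c} → z ∈ I ⊔ Ideal.span {c})
    (m : Ideal A) (hI : I ≤ m) (hcm : c ∈ m) (ham : a ∈ m) (hm : m ≠ ⊤) :
    IsRegular (A ⧸ I) [c, a] := by
  refine ⟨?_, ?_⟩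
  · rw [isWeaklyRegular_cons_iff, isWeaklyRegular_cons_iff, smulRegular_iff,
      smulRegular_quot_iff]
    exact ⟨hc, ha, IsWeaklyRegular.nil _ _⟩
  · intro h
    apply hm
    rw [Ideal.eq_top_iff_one]
    have h1 : (1 : A ⧸ I) ∈ (Ideal.ofList [c, a] • (⊤ : Submodule A (A ⧸ I))) := by
      rw [← h]; trivial
    rw [Ideal.smul_top_eq_map] at h1
    have h2 : (Ideal.Quotient.mk I 1) ∈ (Ideal.ofList [c, a]).map (Ideal.Quotient.mk I) := h1
    rw [Ideal.mem_map_iff_of_surjective _ Ideal.Quotient.mk_surjective] at h2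
    obtain ⟨z, hz, hz'⟩ := h2
    rw [Ideal.Quotient.eq] at hz'
    have h3 : z ∈ m := by
      have : Ideal.ofList [c, a] ≤ m := by
        rw [Ideal.span_le]
        intro r hr
        simp at hr
        rcases hr with rfl | rfl
        · exact hcm
        · exact ham
      exact this hz
    have : (1 : A) = z - (z - 1) := by ring
    rw [this]
    exact sub_mem h3 (hI hz')

/-- A criterion for a sequence of length one to be regular on `A ⧸ I`. -/
lemma isRegular_one (I : Ideal A) (c : A) (hc : ∀ z, c * z ∈ I → z ∈ I)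
    (m : Ideal A) (hI : I ≤ m) (hcm : c ∈ m) (hm : m ≠ ⊤) :
    IsRegular (A ⧸ I) [c] := by
  refine ⟨?_, ?_⟩
  · rw [isWeaklyRegular_cons_iff, smulRegular_iff]
    exact ⟨hc, IsWeaklyRegular.nil _ _⟩
  · intro h
    apply hm
    rw [Ideal.eq_top_iff_one]
    have h1 : (1 : A ⧸ I) ∈ (Ideal.ofList [c] • (⊤ : Submodule A (A ⧸ I))) := by
      rw [← h]; trivial
    rw [Ideal.smul_top_eq_map] at h1
    have h2 : (Ideal.Quotient.mk I 1) ∈ (Ideal.ofList [c]).map (Ideal.Quotient.mk I) := h1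
    rw [Ideal.mem_map_iff_of_surjective _ Ideal.Quotient.mk_surjective] at h2
    obtain ⟨z, hz, hz'⟩ := h2
    rw [Ideal.Quotient.eq] at hz'
    have h3 : z ∈ m := by
      have : Ideal.ofList [c] ≤ m := by
        rw [Ideal.span_le]
        intro r hr
        simp at hr
        rcases hr with rfl
        exact hcm
      exact this hz
    have : (1 : A) = z - (z - 1) := by ring
    rw [this]
    exact sub_mem h3 (hI hz')

end Pool.Agent.P0d2d15
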