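import Mathlib
import Pool.Agent.Lib.P0d2d15.Exch

set_option autoImplicit false

/-!
An upper bound for the length of regular sequences from the Rees theorem: if `c, a` is a
regular sequence on `A ⧸ I` and every element of `m` has a power killing a fixed nonzero class
of `A ⧸ (I + (c, a))`, then no regular sequence in `m` has length three or more.
-/

namespace Pool.Agent.P0d2d15

open RingTheory.Sequence CategoryTheory Abelian
open scoped Pointwise

universe u

variable {A : Type u} [CommRing A]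

/-- One step: vanishing of `Ext` passes to the quotient by a regular element. -/
lemma ext_quot [IsNoetherianRing A] (N M : ModuleCat.{u} A) (x : A) (hx : IsSMulRegular M x)
    (n : ℕ) (h : ∀ i < n + 1, Subsingleton (Ext N M i)) :
    ∀ i < n, Subsingleton (Ext N (ModuleCat.of A (QuotSMulTop x M)) i) := by
  intro i hi
  have zero1 := AddCommGrpCat.isZero_of_iff_subsingleton.mpr (h i (by omega))
  have zero2 := AddCommGrpCat.isZero_of_iff_subsingleton.mpr (h (i + 1) (by omega))
  exact AddCommGrpCat.subsingleton_of_isZero <| ShortComplex.Exact.isZero_of_both_zeros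
    ((Ext.covariant_sequence_exact₃' N hx.smulShortComplex_shortExact) i (i + 1) rfl)
    (zero1.eq_zero_of_src _) (zero2.eq_zero_of_tgt _)

lemma mk_mem_smul_top₂ (I : Ideal A) (r s z : A) :
    (Submodule.Quotient.mk (Submodule.Quotient.mk z : A ⧸ I) : QuotSMulTop r (A ⧸ I)) ∈
      (s • (⊤ : Submodule A (QuotSMulTop r (A ⧸ I)))) ↔
      z ∈ I ⊔ Ideal.span {r} ⊔ Ideal.span {s} := by
  rw [Submodule.mem_smul_pointwise_iff_exists]
  constructor
  · rintro ⟨w, -, hw⟩
    obtain ⟨w, rfl⟩ := Submodule.Quotient.mk_surjective _ w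
    obtain ⟨w, rfl⟩ := Submodule.Quotient.mk_surjective _ w
    rw [← Submodule.Quotient.mk_smul, Submodule.Quotient.eq, ← Submodule.Quotient.mk_smul,
      ← Submodule.Quotient.mk_sub, mk_mem_smul_top] at hw
    have h : z = -(s • w - z) + w * s := by simp only [smul_eq_mul]; ring
    rw [h]
    exact add_mem (Ideal.mem_sup_left (neg_mem hw))
      (Ideal.mem_sup_right (Ideal.mul_mem_left _ _ (Ideal.mem_span_singleton_self s)))
  · intro h
    obtain ⟨y, hy, w, hw, rfl⟩ := Submodule.mem_sup.1 h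
    obtain ⟨w, rfl⟩ := Ideal.mem_span_singleton'.1 hw
    refine ⟨Submodule.Quotient.mk (Submodule.Quotient.mk w), trivial, ?_⟩
    rw [← Submodule.Quotient.mk_smul, Submodule.Quotient.eq, ← Submodule.Quotient.mk_smul,
      ← Submodule.Quotient.mk_sub, mk_mem_smul_top]
    have h : s • w - (y + w * s) = -y := by simp only [smul_eq_mul]; ring
    rw [h]
    exact neg_mem hy

/-- If `c, a` is a regular sequence on `A/I`, and some nonzero class in `A/(I,c,a)` is killed by
powers of every element of `m`, then no regular sequence in `m` has length three. -/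
lemma length_le_two [IsNoetherianRing A] (I m : Ideal A) (c a F : A) (hI : I ≤ m) (hm1 : m ≠ ⊤)
    (hcm : c ∈ m) (ham : a ∈ m)
    (hc : ∀ z, c * z ∈ I → z ∈ I)
    (ha : ∀ z, a * z ∈ I ⊔ Ideal.span {c} → z ∈ I ⊔ Ideal.span {c})
    (hF : F ∉ I ⊔ Ideal.span {c} ⊔ Ideal.span {a})
    (hm : ∀ r ∈ m, ∃ n : ℕ, r ^ n * F ∈ I ⊔ Ideal.span {c} ⊔ Ideal.span {a})
    (rs : List A) (hrs : ∀ r ∈ rs, r ∈ m) (hreg : IsRegular (A ⧸ I) rs) :
    rs.length ≤ 2 := by
  by_contra hlen
  have hlen3 : 3 ≤ rs.length := by omega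
  let M : ModuleCat.{u} A := ModuleCat.of A (A ⧸ I)
  let N : ModuleCat.{u} A := ModuleCat.of A (A ⧸ m)
  have htop : ∀ J : Ideal A, J ≤ m → m • (⊤ : Submodule A (A ⧸ J)) < ⊤ := by
    intro J hJ
    rw [lt_top_iff_ne_top]
    intro h
    apply hm1
    rw [Ideal.eq_top_iff_one]
    have h1 : (1 : A ⧸ J) ∈ (m • (⊤ : Submodule A (A ⧸ J))) := by rw [h]; trivial
    rw [Ideal.smul_top_eq_map] at h1
    have h2 : (Ideal.Quotient.mk J 1) ∈ m.map (Ideal.Quotient.mk J) := h1
    rw [Ideal.mem_map_iff_of_surjective _ Ideal.Quotient.mk_surjective] at h2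
    obtain ⟨z, hz, hz'⟩ := h2
    rw [Ideal.Quotient.eq] at hz'
    have : (1 : A) = z - (z - 1) := by ring
    rw [this]
    exact sub_mem hz (hJ hz')
  have hsupp : Module.support A N ⊆ PrimeSpectrum.zeroLocus m := by
    have : Module.support A (A ⧸ m) = PrimeSpectrum.zeroLocus m := by
      rw [Module.support_eq_zeroLocus, Ideal.annihilator_quotient]
    exact this.subset
  have hsupp' : Module.support A N = PrimeSpectrum.zeroLocus m := by
    have : Module.support A (A ⧸ m) = PrimeSpectrum.zeroLocus m := by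
      rw [Module.support_eq_zeroLocus, Ideal.annihilator_quotient]
    exact this
  have e0 : ∀ i < rs.length, Subsingleton (Ext N M i) :=
    ModuleCat.subsingleton_ext_of_exists_isRegular m N hsupp M (htop I hI) rs hrs hreg
  have hregc : IsSMulRegular M c := (smulRegular_iff I c).2 hc
  have e1 : ∀ i < 2, Subsingleton (Ext N (ModuleCat.of A (QuotSMulTop c M)) i) :=
    ext_quot N M c hregc 2 (fun i hi => e0 i (by omega))
  have hrega : IsSMulRegular (ModuleCat.of A (QuotSMulTop c M)) a :=
    (smulRegular_quot_iff I c a).2 ha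
  have e2 : ∀ i < 1, Subsingleton (Ext N (ModuleCat.of A (QuotSMulTop a
      (ModuleCat.of A (QuotSMulTop c M)))) i) :=
    ext_quot N _ a hrega 1 e1
  -- the proper inclusion for the double quotient
  have htop2 : m • (⊤ : Submodule A (ModuleCat.of A (QuotSMulTop a
      (ModuleCat.of A (QuotSMulTop c M))))) < ⊤ := by
    rw [lt_top_iff_ne_top]
    intro h
    have hsurj : Function.Surjective (((a • (⊤ : Submodule A (QuotSMulTop c (A ⧸ I)))).mkQ).comp
        ((c • (⊤ : Submodule A (A ⧸ I))).mkQ)) :=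
      (Submodule.mkQ_surjective _).comp (Submodule.mkQ_surjective _)
    have h1 := Submodule.comap_smul_top_of_surjective m _ hsurj
    have h2 : Submodule.comap (((a • (⊤ : Submodule A (QuotSMulTop c (A ⧸ I)))).mkQ).comp
        ((c • (⊤ : Submodule A (A ⧸ I))).mkQ)) (m • ⊤) = ⊤ := by
      have : (m • (⊤ : Submodule A (QuotSMulTop a (QuotSMulTop c (A ⧸ I))))) = ⊤ := h
      rw [this, Submodule.comap_top]
    rw [h2] at h1
    have h3 : LinearMap.ker (((a • (⊤ : Submodule A (QuotSMulTop c (A ⧸ I)))).mkQ).comp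
        ((c • (⊤ : Submodule A (A ⧸ I))).mkQ)) ≤ m • ⊤ := by
      intro z hz
      obtain ⟨z, rfl⟩ := Submodule.Quotient.mk_surjective _ z
      have hz1 : (Submodule.Quotient.mk (Submodule.Quotient.mk (Submodule.Quotient.mk z :
          A ⧸ I) : QuotSMulTop c (A ⧸ I)) : QuotSMulTop a (QuotSMulTop c (A ⧸ I))) = 0 := hz
      rw [Submodule.Quotient.mk_eq_zero, mk_mem_smul_top₂] at hz1
      have hz2 : z ∈ m := by
        refine (sup_le (sup_le hI ?_) ?_) hz1
        · rw [Ideal.span_singleton_le_iff_mem]; exact hcm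
        · rw [Ideal.span_singleton_le_iff_mem]; exact ham
      rw [Ideal.smul_top_eq_map]
      exact Ideal.mem_map_of_mem (Ideal.Quotient.mk I) hz2
    have h4 : (m • (⊤ : Submodule A (A ⧸ I))) = ⊤ :=
      top_le_iff.1 (h1.le.trans (sup_le le_rfl h3))
    exact (htop I hI).ne h4
  obtain ⟨rs', hl, hmem, hr⟩ := ModuleCat.exists_isRegular_of_exists_subsingleton_ext m 1
    (ModuleCat.of A (QuotSMulTop a (ModuleCat.of A (QuotSMulTop c M)))) htop2 N hsupp' e2
  obtain ⟨r, rfl⟩ := List.length_eq_one_iff.1 hl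
  have hrm : r ∈ m := hmem r (by simp)
  rw [isRegular_cons_iff] at hr
  have hr1 : IsSMulRegular (QuotSMulTop a (QuotSMulTop c (A ⧸ I))) r := hr.1
  obtain ⟨n, hn⟩ := hm r hrm
  have h5 := hr1.pow n
  have h6 : r ^ n • (Submodule.Quotient.mk (Submodule.Quotient.mk (Submodule.Quotient.mk F :
          A ⧸ I) : QuotSMulTop c (A ⧸ I)) : QuotSMulTop a (QuotSMulTop c (A ⧸ I))) = 0 := by
    rw [← Submodule.Quotient.mk_smul, Submodule.Quotient.mk_eq_zero, ← Submodule.Quotient.mk_smul,
      ← Submodule.Quotient.mk_smul, mk_mem_smul_top₂]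
    exact hn
  have h7 : (Submodule.Quotient.mk (Submodule.Quotient.mk (Submodule.Quotient.mk F :
          A ⧸ I) : QuotSMulTop c (A ⧸ I)) : QuotSMulTop a (QuotSMulTop c (A ⧸ I))) = 0 := by
    apply h5
    show r ^ n • _ = r ^ n • _
    rw [h6, smul_zero]
  rw [Submodule.Quotient.mk_eq_zero, mk_mem_smul_top₂] at h7
  exact hF h7

end Pool.Agent.P0d2d15
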