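import Pool.Agent.Lib.P0d2d15.Final
import Pool.Agent.Lib.P0d2d15.Rees

set_option autoImplicit false

/-!
The exact depth function of the counterexample: two at powers of two, one elsewhere.
-/

namespace Pool.Agent.P0d2d15

open MvPolynomial

noncomputable section

/-- `b, c ↦ 0`. -/
def lam : S →ₐ[ZMod 2] S := aeval ![va, 0, 0, vx, vy]

lemma lam_a : lam va = va := by simp [lam]
lemma lam_b : lam vb = 0 := by simp [lam]
lemma lam_c : lam vc = 0 := by simp [lam]

lemma phi_ne (t : ℕ) (ht : 0 < t) (y1 y2 y3 z1 z2 z3 : S) :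
    (w1 : S) ^ t ≠ vc * (w1 ^ t * y1 + w2 ^ t * y2 + w3 ^ t * y3) +
      va * (w1 ^ t * z1 + w2 ^ t * z2 + w3 ^ t * z3) := by
  intro h
  have h1 := congrArg lam h
  have e2 : lam w2 = 0 := by rw [map_mul, lam_b, mul_zero]
  have e3 : lam w3 = 0 := by rw [map_add, map_pow, map_mul, lam_b, lam_c]; ring
  have e1 : lam w1 = va ^ 2 := by rw [map_pow, lam_a]
  simp only [map_add, map_mul, map_pow lam (w1 : S), map_pow lam (w2 : S), map_pow lam (w3 : S),
    e1, e2, e3, lam_c, lam_a, zero_pow ht.ne', zero_mul, add_zero, zero_add] at h1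
  have h2 : (va ^ 2 : S) ^ t * (1 - va * lam z1) = 0 := by linear_combination h1
  rcases mul_eq_zero.1 h2 with h3 | h3
  · exact pow_ne_zero _ (pow_ne_zero _ va_ne) h3
  · have h4 := congrArg (constantCoeff : S →+* ZMod 2) h3
    simp at h4

/-- The obstruction element for exponent `n + 1`. -/
def hh (n : ℕ) : S := form (5 * n + 4) 1 0 0

lemma hh_mem (n : ℕ) : hh n ∈ P ^ (5 * (n + 1) + 1) := form_mem _ _ _ _

lemma Phi_hh (n : ℕ) : Phi (n + 1) (hh n) = w1 ^ (n + 1) := by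
  rw [hh, Phi_form, map_one, map_zero]; ring

lemma Phi_expand (t : ℕ) (F : S) : Phi t F = w1 ^ t * val 1 0 (5 * t + 1) F +
    w2 ^ t * val 0 1 (5 * t + 1) F + w3 ^ t * val 1 1 (5 * t + 1) F := rfl

lemma hh_notMem (n : ℕ) : hh n ∉ Xt (n + 1) ⊔ Ideal.span {vc} ⊔ Ideal.span {va} := by
  intro h
  obtain ⟨Y, hY, W, hW, e1⟩ := Submodule.mem_sup.1 h
  obtain ⟨Z, rfl⟩ := Ideal.mem_span_singleton'.1 hW
  obtain ⟨G, hG, W', hW', e2⟩ := Submodule.mem_sup.1 hY
  obtain ⟨Y', rfl⟩ := Ideal.mem_span_singleton'.1 hW'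
  have h1 : Phi (n + 1) (hh n) = Phi (n + 1) (G + vc * Y' + va * Z) := by
    rw [← e1, ← e2]; congr 1; ring
  rw [Phi_hh, Phi_add, Phi_add, Phi_Xt _ _ hG, zero_add, Phi_c, Phi_a, Phi_expand,
    Phi_expand] at h1
  exact phi_ne _ (Nat.succ_pos n) _ _ _ _ _ _ h1

lemma hh_kill (n : ℕ) (r : S) (hr : constantCoeff r = 0) :
    ∃ k : ℕ, r ^ k * hh n ∈ Xt (n + 1) ⊔ Ideal.span {vc} ⊔ Ideal.span {va} := by
  let J : Ideal S := (Xt (n + 1) ⊔ Ideal.span {vc} ⊔ Ideal.span {va}).colon {hh n}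
  have hJ : ∀ z, z ∈ J ↔ z * hh n ∈ Xt (n + 1) ⊔ Ideal.span {vc} ⊔ Ideal.span {va} := by
    intro z
    simp only [J]
    rw [Submodule.mem_colon_singleton]
    rfl
  have hle : mm ≤ J.radical := by
    apply mm_le
    intro i
    fin_cases i
    · refine ⟨1, (hJ _).2 ?_⟩
      rw [pow_one]
      exact Ideal.mem_sup_right (Ideal.mul_mem_right _ _ (Ideal.mem_span_singleton_self _))
    · refine ⟨n + 1, (hJ _).2 ?_⟩
      show vb ^ (n + 1) * hh n ∈ _
      have hform : form (5 * n + 4) 0 1 0 ∈ P ^ (5 * (n + 1) + 1) := form_mem _ _ _ _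
      have h1 : vb ^ (n + 1) * hh n + va ^ (n + 1) * form (5 * n + 4) 0 1 0 ∈ Xt (n + 1) := by
        apply mem_Xt_of_Phi
        · exact add_mem (Ideal.mul_mem_left _ _ (hh_mem n)) (Ideal.mul_mem_left _ _ hform)
        · have hb : ∀ (k : ℕ) (F : S), Phi (n + 1) (vb ^ k * F) = vb ^ k * Phi (n + 1) F := by
            intro k F
            induction k with
            | zero => simp
            | succ k ih => rw [pow_succ', mul_assoc, Phi_b, ih, mul_assoc]
          have ha : ∀ (k : ℕ) (F : S), Phi (n + 1) (va ^ k * F) = va ^ k * Phi (n + 1) F := by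
            intro k F
            induction k with
            | zero => simp
            | succ k ih => rw [pow_succ', mul_assoc, Phi_a, ih, mul_assoc]
          rw [Phi_add, hb, ha, Phi_hh, Phi_form, map_zero, map_one]
          have e1 : (w1 : S) ^ (n + 1) = va ^ (n + 1) * va ^ (n + 1) := by
            rw [← mul_pow]; congr 1; ring
          have e2 : (w2 : S) ^ (n + 1) = va ^ (n + 1) * vb ^ (n + 1) := by rw [← mul_pow]
          rw [e1, e2]
          have := add_self (vb ^ (n + 1) * (va ^ (n + 1) * va ^ (n + 1)) : S)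
          linear_combination this
      have h2 : vb ^ (n + 1) * hh n =
          (vb ^ (n + 1) * hh n + va ^ (n + 1) * form (5 * n + 4) 0 1 0) +
          (- (va ^ n * form (5 * n + 4) 0 1 0)) * va := by
        rw [pow_succ va n]; ring
      rw [h2]
      exact add_mem (Ideal.mem_sup_left (Ideal.mem_sup_left h1))
        (Ideal.mem_sup_right (Ideal.mul_mem_left _ _ (Ideal.mem_span_singleton_self _)))
    · refine ⟨1, (hJ _).2 ?_⟩
      rw [pow_one]
      exact Ideal.mem_sup_left (Ideal.mem_sup_right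
        (Ideal.mul_mem_right _ _ (Ideal.mem_span_singleton_self _)))
    · refine ⟨1, (hJ _).2 ?_⟩
      rw [pow_one]
      refine Ideal.mem_sup_left (Ideal.mem_sup_left (P_pow_le_Xt (n + 1) ?_))
      rw [show 5 * (n + 1) + 2 = 1 + (5 * (n + 1) + 1) by ring, pow_add (P : Ideal S), pow_one]
      exact Ideal.mul_mem_mul hx (hh_mem n)
    · refine ⟨1, (hJ _).2 ?_⟩
      rw [pow_one]
      refine Ideal.mem_sup_left (Ideal.mem_sup_left (P_pow_le_Xt (n + 1) ?_))
      rw [show 5 * (n + 1) + 2 = 1 + (5 * (n + 1) + 1) by ring, pow_add (P : Ideal S), pow_one]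
      exact Ideal.mul_mem_mul hy (hh_mem n)
  obtain ⟨k, hk'⟩ := hle hr
  exact ⟨k, (hJ _).1 hk'⟩

lemma lengths_pow_two_le (e m : ℕ) (hm : m ∈ lengths (2 ^ e)) : m ≤ 2 := by
  obtain ⟨n, hn⟩ : ∃ n, 2 ^ e = n + 1 := ⟨2 ^ e - 1, by have := Nat.two_pow_pos e; omega⟩
  obtain ⟨rs, rfl, hrs, hreg⟩ := hm
  refine length_le_two (Xt (2 ^ e)) mm vc va (hh n) (by rw [hn]; exact Xt_le_mm n) mm_ne_top
    ?_ ?_ (c_regular _) (a_regular e) ?_ ?_ rs hrs hreg
  · show constantCoeff vc = 0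
    simp
  · show constantCoeff va = 0
    simp
  · rw [hn]; exact hh_notMem n
  · intro r hr; rw [hn]; exact hh_kill n r hr

lemma lengths_not_pow_le (t : ℕ) (ht : 0 < t) (hnp : ∀ e, t ≠ 2 ^ e) (m : ℕ)
    (hm : m ∈ lengths t) : m ≤ 1 := by
  obtain ⟨i1, h1, h2, h3, h4⟩ := exists_index t ht hnp
  obtain ⟨h', hr, hn, hc⟩ := exists_h t i1 h1 h2 h3 h4
  obtain ⟨n, rfl⟩ : ∃ n, t = n + 1 := ⟨t - 1, by omega⟩
  obtain ⟨rs, rfl, hrs, hreg⟩ := hm
  exact length_le_one_of_obstruction n h' hr hn hc rs hrs hreg.toIsWeaklyRegular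

end

end Pool.Agent.P0d2d15
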