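import Pool.Agent.Lib.P0d2d15.Neg

set_option autoImplicit false

/-!
Assembly: homogeneity and minimal primes of `Q`, the depth function.
-/

namespace Pool.Agent.P0d2d15

open MvPolynomial

noncomputable section

attribute [local instance] MvPolynomial.gradedAlgebra

lemma Q_homogeneous : Q.IsHomogeneous (homogeneousSubmodule (Fin 5) (ZMod 2)) := by
  have hP : P.IsHomogeneous (homogeneousSubmodule (Fin 5) (ZMod 2)) := by
    apply Ideal.homogeneous_span
    intro z hz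
    rcases hz with rfl | rfl
    · exact ⟨1, isHomogeneous_X _ _⟩
    · exact ⟨1, isHomogeneous_X _ _⟩
  have hPn : ∀ n : ℕ, (P ^ n).IsHomogeneous (homogeneousSubmodule (Fin 5) (ZMod 2)) := by
    intro n
    induction n with
    | zero => rw [pow_zero, Ideal.one_eq_top]; exact Ideal.IsHomogeneous.top _
    | succ n ih => rw [pow_succ]; exact Ideal.IsHomogeneous.mul ih hP
  have ha : (va : S).IsHomogeneous 1 := isHomogeneous_X _ _
  have hb : (vb : S).IsHomogeneous 1 := isHomogeneous_X _ _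
  have hc : (vc : S).IsHomogeneous 1 := isHomogeneous_X _ _
  have hx : (vx : S).IsHomogeneous 1 := isHomogeneous_X _ _
  have hy : (vy : S).IsHomogeneous 1 := isHomogeneous_X _ _
  have hd : (vd : S).IsHomogeneous 2 := (hb.pow 2).add (ha.mul hc)
  have hu1 : (u1 : S).IsHomogeneous 3 := hb.mul hd
  have hu2 : (u2 : S).IsHomogeneous 3 := ha.mul hd
  have hu3 : (u3 : S).IsHomogeneous 3 := (ha.pow 2).mul hb
  have hf : (f0 : S).IsHomogeneous 8 :=
    ((hu1.mul (hx.pow 5)).add (hu2.mul (hy.pow 5))).add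
      (((hu1.add hu2).add hu3).mul ((hx.pow 4).mul hy))
  have hg : (g : S).IsHomogeneous 3 := (hx.mul hy).mul (hx.add hy)
  have hspan : ∀ (z : S) (n : ℕ), z.IsHomogeneous n →
      (Ideal.span {z}).IsHomogeneous (homogeneousSubmodule (Fin 5) (ZMod 2)) := by
    intro z n hz
    apply Ideal.homogeneous_span
    intro w hw
    rcases hw with rfl
    exact ⟨n, hz⟩
  exact ((hspan _ _ hf).sup ((hspan _ _ hg).mul (hPn 2))).sup (hPn 7)

lemma Q_homogeneousComponent (p : S) (hp : p ∈ Q) (d : ℕ) : homogeneousComponent d p ∈ Q := by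
  have h := Q_homogeneous d hp
  have e : (DirectSum.decompose (homogeneousSubmodule (Fin 5) (ZMod 2)) p d : S) =
      homogeneousComponent d p := decomposition.decompose'_apply p d
  rwa [e] at h

lemma Q_le_P : Q ≤ P := by
  refine sup_le (sup_le ?_ ?_) ?_
  · rw [Ideal.span_singleton_le_iff_mem]
    exact Ideal.pow_le_self (by norm_num) f0_mem_P
  · exact le_trans Ideal.mul_le_right (Ideal.pow_le_self (show (2 : ℕ) ≠ 0 by norm_num))
  · exact Ideal.pow_le_self (show (7 : ℕ) ≠ 0 by norm_num)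

lemma mem_minimalPrimes_iff (P' : Ideal S) : P' ∈ Q.minimalPrimes ↔ P' = P := by
  constructor
  · rintro ⟨⟨hp, hQ⟩, hmin⟩
    have h1 : P ≤ P' := by
      have : P ^ 7 ≤ P' := P7_le_Q.trans hQ
      exact Ideal.IsPrime.le_of_pow_le this
    exact le_antisymm (hmin ⟨P_prime, Q_le_P⟩ h1) h1
  · rintro rfl
    refine ⟨⟨P_prime, Q_le_P⟩, ?_⟩
    rintro q ⟨hq, hQ⟩ _
    have : P ^ 7 ≤ q := P7_le_Q.trans hQ
    exact Ideal.IsPrime.le_of_pow_le this

lemma symb (t : ℕ) (f : S) :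
    f ∈ Xt t ↔ ∃ s : S, (∀ P' ∈ Q.minimalPrimes, s ∉ P') ∧ s * f ∈ Q ^ t := by
  rw [mem_Xt_iff]
  constructor
  · rintro ⟨s, hs, h⟩
    refine ⟨s, ?_, h⟩
    intro P' hP'
    rw [mem_minimalPrimes_iff] at hP'
    rwa [hP']
  · rintro ⟨s, hs, h⟩
    exact ⟨s, hs P ((mem_minimalPrimes_iff P).2 rfl), h⟩

/-- The set of lengths of regular sequences. -/
def lengths (t : ℕ) : Set ℕ :=
  {m : ℕ | ∃ rs : List S, rs.length = m ∧ (∀ r ∈ rs, constantCoeff r = 0) ∧
    RingTheory.Sequence.IsRegular (S ⧸ Xt t) rs}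

lemma Xt_le_mm (n : ℕ) : Xt (n + 1) ≤ mm := by
  intro F hF
  have h1 : F ∈ P := Ideal.pow_le_self (by omega) hF.1
  have h2 : P ≤ mm := by
    rw [P, Ideal.span_le]
    intro z hz
    rcases hz with rfl | rfl
    · show constantCoeff vx = 0
      simp
    · show constantCoeff vy = 0
      simp
  exact h2 h1

lemma mm_ne_top : mm ≠ ⊤ := by
  rw [Ideal.ne_top_iff_one]
  intro h
  have : constantCoeff (1 : S) = (0 : ZMod 2) := h
  simp at this

lemma one_mem_lengths (n : ℕ) : 1 ∈ lengths (n + 1) := by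
  refine ⟨[vc], rfl, ?_, ?_⟩
  · intro r hr
    simp only [List.mem_singleton] at hr
    rw [hr]; simp
  · refine isRegular_one _ _ (c_regular (n + 1)) mm (Xt_le_mm n) ?_ mm_ne_top
    show constantCoeff vc = 0
    simp

lemma two_mem_lengths (e : ℕ) : 2 ∈ lengths (2 ^ e) := by
  obtain ⟨n, hn⟩ : ∃ n, 2 ^ e = n + 1 := ⟨2 ^ e - 1, by have := Nat.two_pow_pos e; omega⟩
  refine ⟨[vc, va], rfl, ?_, ?_⟩
  · intro r hr
    simp only [List.mem_cons, List.not_mem_nil, or_false] at hr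
    rcases hr with rfl | rfl <;> simp
  · refine isRegular_two _ _ _ (c_regular _) (a_regular e) mm (by rw [hn]; exact Xt_le_mm n)
      ?_ ?_ mm_ne_top
    · show constantCoeff vc = 0
      simp
    · show constantCoeff va = 0
      simp

lemma sSup_pow_two (e : ℕ) : sSup (lengths (2 ^ e)) ≠ 1 := by
  intro h
  by_cases hb : BddAbove (lengths (2 ^ e))
  · have := le_csSup hb (two_mem_lengths e)
    omega
  · rw [Nat.sSup_of_not_bddAbove hb] at h
    omega

lemma choose_two_pow (e m : ℕ) : ((2 ^ e * m).choose (2 ^ e)) % 2 = m % 2 := by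
  induction e with
  | zero => simp
  | succ e ih =>
    have h1 := Choose.choose_modEq_choose_mod_mul_choose_div_nat (n := 2 ^ (e + 1) * m)
      (k := 2 ^ (e + 1)) (p := 2)
    have e1 : 2 ^ (e + 1) * m % 2 = 0 := by
      rw [pow_succ, mul_assoc, mul_left_comm, Nat.mul_mod_right]
    have e2 : 2 ^ (e + 1) % 2 = 0 := by rw [pow_succ, Nat.mul_mod_left]
    have e3 : 2 ^ (e + 1) * m / 2 = 2 ^ e * m := by
      rw [pow_succ, mul_assoc, mul_left_comm, Nat.mul_div_cancel_left _ (by norm_num)]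
    have e4 : 2 ^ (e + 1) / 2 = 2 ^ e := by
      rw [pow_succ, Nat.mul_div_cancel _ (by norm_num)]
    rw [e1, e2, e3, e4, Nat.choose_self, one_mul] at h1
    exact h1.trans ih

lemma natCast_S (n : ℕ) : (n : S) = if n % 2 = 0 then 0 else 1 := by
  have h2 := two_eq_zero
  split_ifs with h
  · obtain ⟨k, rfl⟩ : 2 ∣ n := Nat.dvd_of_mod_eq_zero h
    push_cast
    rw [h2, zero_mul]
  · obtain ⟨k, hk⟩ : ∃ k, n = 2 * k + 1 := ⟨n / 2, by omega⟩
    rw [hk]
    push_cast
    rw [h2, zero_mul, zero_add]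

/-- Existence of the first odd binomial coefficient past the middle. -/
lemma exists_index (t : ℕ) (ht : 0 < t) (hnp : ∀ e, t ≠ 2 ^ e) :
    ∃ i1, i1 < t ∧ t < 2 * i1 ∧ (t.choose i1 : S) = 1 ∧
      ∀ i < i1, t < 2 * i → (t.choose i : S) = 0 := by
  classical
  obtain ⟨e, m, hm, htm⟩ := Nat.exists_eq_two_pow_mul_odd ht.ne'
  have hm1 : m ≠ 1 := by
    rintro rfl
    exact hnp e (by rw [htm, mul_one])
  obtain ⟨l, hl⟩ := hm
  have hm3 : 3 ≤ m := by omega
  have hpos : 0 < 2 ^ e := Nat.two_pow_pos e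
  have hex : ∃ i, i < t ∧ t < 2 * i ∧ (t.choose i) % 2 = 1 := by
    refine ⟨t - 2 ^ e, by omega, ?_, ?_⟩
    · have : 3 * 2 ^ e ≤ t := by rw [htm]; nlinarith
      omega
    · have h1 : 2 ^ e ≤ t := by rw [htm]; nlinarith
      rw [Nat.choose_symm h1, htm, choose_two_pow]
      omega
  refine ⟨Nat.find hex, (Nat.find_spec hex).1, (Nat.find_spec hex).2.1, ?_, ?_⟩
  · rw [natCast_S, if_neg]
    have := (Nat.find_spec hex).2.2
    omega
  · intro i hi h2
    have := Nat.find_min hex hi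
    rw [natCast_S, if_pos]
    by_contra hne
    apply this
    refine ⟨lt_trans hi (Nat.find_spec hex).1, h2, by omega⟩

lemma sSup_not_pow (t : ℕ) (ht : 0 < t) (hnp : ∀ e, t ≠ 2 ^ e) : sSup (lengths t) = 1 := by
  obtain ⟨i1, h1, h2, h3, h4⟩ := exists_index t ht hnp
  obtain ⟨h', hr, hn, hc⟩ := exists_h t i1 h1 h2 h3 h4
  obtain ⟨n, rfl⟩ : ∃ n, t = n + 1 := ⟨t - 1, by omega⟩
  have hle : ∀ m ∈ lengths (n + 1), m ≤ 1 := by
    rintro m ⟨rs, rfl, hrs, hreg⟩
    exact length_le_one_of_obstruction n h' hr hn hc rs hrs hreg.toIsWeaklyRegular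
  apply le_antisymm
  · exact csSup_le ⟨1, one_mem_lengths n⟩ hle
  · exact le_csSup ⟨1, hle⟩ (one_mem_lengths n)

theorem not_periodic : ¬ ∃ p : ℕ, 0 < p ∧ ∃ N : ℕ, ∀ t : ℕ, N ≤ t →
    sSup (lengths (t + p)) = sSup (lengths t) := by
  rintro ⟨p, hp, N, h⟩
  have hN : N ≤ 2 ^ (N + p) :=
    (Nat.le_add_right N p).trans (Nat.lt_two_pow_self).le
  have hpp : p < 2 ^ (N + p) :=
    lt_of_le_of_lt (Nat.le_add_left p N) (Nat.lt_two_pow_self)
  have h1 := h (2 ^ (N + p)) hN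
  have h2 : ∀ e, 2 ^ (N + p) + p ≠ 2 ^ e := by
    intro e he
    have h3 : 2 ^ (N + p) < 2 ^ e := by omega
    have h4 : N + p < e := (Nat.pow_lt_pow_iff_right (by norm_num)).1 h3
    have h5 : 2 ^ (N + p + 1) ≤ 2 ^ e := Nat.pow_le_pow_right (by norm_num) h4
    rw [pow_succ] at h5
    omega
  rw [sSup_not_pow _ (by omega) h2] at h1
  exact sSup_pow_two (N + p) h1.symm

end

end Pool.Agent.P0d2d15
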