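import Pool.Agent.Lib.P0d2d15.Pos
import Pool.Agent.Lib.P0d2d15.Exch

set_option autoImplicit false

/-!
For `t` not a power of two, there is a nonzero class in `S / (Xt t + (c))` killed by powers of all
elements of the irrelevant ideal.
-/

namespace Pool.Agent.P0d2d15

open MvPolynomial

noncomputable section

/-- `(a^t, b^t, (b^2+ac)^t)`. -/
def It (t : ℕ) (z : S) : Prop := ∃ α β γ, z = α * va ^ t + β * vb ^ t + γ * vd ^ t

lemma It_add (t : ℕ) {z w : S} (hz : It t z) (hw : It t w) : It t (z + w) := by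
  obtain ⟨a1, b1, c1, rfl⟩ := hz
  obtain ⟨a2, b2, c2, rfl⟩ := hw
  exact ⟨a1 + a2, b1 + b2, c1 + c2, by ring⟩

lemma It_mul (t : ℕ) (z : S) {w : S} (hw : It t w) : It t (z * w) := by
  obtain ⟨a2, b2, c2, rfl⟩ := hw
  exact ⟨z * a2, z * b2, z * c2, by ring⟩

lemma It_zero (t : ℕ) : It t 0 := ⟨0, 0, 0, by ring⟩

lemma It_sum (t : ℕ) {ι : Type} (s : Finset ι) (f : ι → S) (h : ∀ i ∈ s, It t (f i)) :
    It t (∑ i ∈ s, f i) := by
  classical
  induction s using Finset.induction_on with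
  | empty => simpa using It_zero t
  | insert i s hi ih =>
    rw [Finset.sum_insert hi]
    exact It_add t (h i (by simp)) (ih (fun j hj => h j (by simp [hj])))

/-- The coefficient obstruction: `a^i b^j` with `i,j<t` is not in `(a^t,b^t)`. -/
lemma mono_notMem (t i j : ℕ) (hi : i < t) (hj : j < t) (α β : S) :
    va ^ i * vb ^ j ≠ α * va ^ t + β * vb ^ t := by
  classical
  intro h
  have h1 := congrArg (coeff (Finsupp.single 0 i + Finsupp.single 1 j)) h
  rw [coeff_add] at h1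
  have e1 : (va : S) ^ i * vb ^ j = monomial (Finsupp.single 0 i + Finsupp.single 1 j) 1 := by
    rw [X_pow_eq_monomial, X_pow_eq_monomial, monomial_mul, one_mul]
  rw [e1, coeff_monomial, if_pos rfl, X_pow_eq_monomial, X_pow_eq_monomial,
    coeff_mul_monomial', coeff_mul_monomial', if_neg, if_neg] at h1
  · simp at h1
  · intro hle
    have := hle 1
    simp at this
    omega
  · intro hle
    have := hle 0
    simp at this
    omega

/-- The truncated binomial expansion. -/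
def h0 (t i1 : ℕ) : S :=
  ∑ i ∈ Finset.Ico i1 (t + 1), (va ^ i * vc ^ (i - i1) * vb ^ (2 * (t - i))) * (t.choose i : S)

lemma d_pow (t : ℕ) : (vd : S) ^ t =
    ∑ i ∈ Finset.range (t + 1), (va * vc) ^ i * (vb ^ 2) ^ (t - i) * (t.choose i : S) := by
  have : (vd : S) = va * vc + vb ^ 2 := by simp only [vd]; ring
  rw [this, add_pow]

lemma c_pow_h0 (t i1 : ℕ) (hi1 : i1 ≤ t) (hmin : ∀ i < i1, t < 2 * i → (t.choose i : S) = 0) :
    It t (vc ^ i1 * h0 t i1) := by
  have e : vc ^ i1 * h0 t i1 = vd ^ t -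
      ∑ i ∈ Finset.range i1, (va * vc) ^ i * (vb ^ 2) ^ (t - i) * (t.choose i : S) := by
    rw [d_pow, ← Finset.sum_range_add_sum_Ico _ (show i1 ≤ t + 1 by omega), add_sub_cancel_left,
      h0, Finset.mul_sum]
    refine Finset.sum_congr rfl ?_
    intro i hi
    rw [Finset.mem_Ico] at hi
    obtain ⟨j, rfl⟩ : ∃ j, i = i1 + j := ⟨i - i1, by omega⟩
    rw [add_tsub_cancel_left, mul_pow, ← pow_mul, pow_add vc]
    ring
  rw [e, sub_eq]
  refine It_add t ⟨0, 0, 1, by ring⟩ (It_sum t _ _ ?_)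
  intro i hi
  rw [Finset.mem_range] at hi
  by_cases h : t < 2 * i
  · rw [hmin i hi h, mul_zero]; exact It_zero t
  · have e2 : (vb ^ 2) ^ (t - i) = vb ^ (2 * (t - i) - t) * vb ^ t := by
      rw [← pow_mul, ← pow_add]; congr 1; omega
    exact ⟨0, (va * vc) ^ i * vb ^ (2 * (t - i) - t) * (t.choose i : S), 0, by rw [e2]; ring⟩

lemma kap_h0 (t i1 : ℕ) (hi1 : i1 ≤ t) (hodd : (t.choose i1 : S) = 1) :
    kap (h0 t i1) = va ^ i1 * vb ^ (2 * (t - i1)) := by
  rw [h0, map_sum, Finset.sum_eq_single i1]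
  · simp only [map_mul, map_pow, kap_a, kap_b, tsub_self, pow_zero, mul_one, hodd]
  · intro i hi hne
    rw [Finset.mem_Ico] at hi
    simp only [map_mul, map_pow, kap_a, kap_b, kap_c]
    rw [zero_pow (by omega)]
    ring
  · intro h
    exact absurd (Finset.mem_Ico.2 ⟨le_rfl, by omega⟩) h

lemma h0_notMem (t i1 : ℕ) (hi1 : i1 < t) (h2 : t < 2 * i1) (hodd : (t.choose i1 : S) = 1) :
    ¬ It t (h0 t i1) := by
  rintro ⟨α, β, γ, h⟩
  have h3 := congrArg kap h
  rw [kap_h0 t i1 hi1.le hodd] at h3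
  simp only [map_add, map_mul, map_pow, kap_a, kap_b, kap_c, mul_zero, add_zero] at h3
  refine mono_notMem t i1 (2 * (t - i1)) hi1 (by omega) (kap α) (kap β + kap γ * vb ^ t) ?_
  rw [h3]
  ring

lemma rho_h0 (t i1 : ℕ) : rho (h0 t i1) = h0 t i1 := by
  simp only [h0, map_sum, map_mul, map_pow, rho_a, rho_b, rho_c, map_natCast]

/-- Existence of the socle-type element. -/
lemma exists_h (t i1 : ℕ) (hi1 : i1 < t) (h2 : t < 2 * i1) (hodd : (t.choose i1 : S) = 1)
    (hmin : ∀ i < i1, t < 2 * i → (t.choose i : S) = 0) :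
    ∃ h' : S, rho h' = h' ∧ ¬ It t h' ∧ It t (vc * h') := by
  classical
  have hex : ∃ n, It t (vc ^ n * h0 t i1) := ⟨i1, c_pow_h0 t i1 hi1.le hmin⟩
  obtain ⟨n, hn⟩ : ∃ n, Nat.find hex = n + 1 := by
    refine ⟨Nat.find hex - 1, ?_⟩
    have : Nat.find hex ≠ 0 := by
      intro h0'
      have := Nat.find_spec hex
      rw [h0', pow_zero, one_mul] at this
      exact h0_notMem t i1 hi1 h2 hodd this
    omega
  refine ⟨vc ^ n * h0 t i1, ?_, ?_, ?_⟩
  · rw [map_mul, map_pow, rho_c, rho_h0]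
  · exact Nat.find_min hex (by omega)
  · have := Nat.find_spec hex
    rwa [hn, pow_succ', mul_assoc] at this

/-- For `t` not a power of two: the obstruction element. -/
lemma exists_obstruction (n : ℕ) (h' : S) (hr : rho h' = h') (hn : ¬ It (n + 1) h')
    (hc : It (n + 1) (vc * h')) :
    ∃ F : S, F ∉ Xt (n + 1) ⊔ Ideal.span {vc} ∧
      (∀ r ∈ ({va ^ (n + 1), vb ^ (n + 1), vc, vx, vy} : Set S),
        r * F ∈ Xt (n + 1) ⊔ Ideal.span {vc}) := by
  obtain ⟨α, β, γ, hαβγ⟩ := hc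
  have e1 : (w1 : S) ^ (n + 1) = va ^ (n + 1) * va ^ (n + 1) := by rw [← mul_pow]; congr 1; ring
  have e2 : (w2 : S) ^ (n + 1) = va ^ (n + 1) * vb ^ (n + 1) := by rw [← mul_pow]
  have hA : (va : S) ^ (n + 1) ≠ 0 := pow_ne_zero _ va_ne
  have hPF := Phi_form n α β (va ^ (n + 1) * γ)
  have hFP : form (5 * n + 4) α β (va ^ (n + 1) * γ) ∈ P ^ (5 * (n + 1) + 1) :=
    form_mem (5 * n + 4) _ _ _
  have hPhi : Phi (n + 1) (form (5 * n + 4) α β (va ^ (n + 1) * γ)) =
      vc * (va ^ (n + 1) * h') := by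
    have h1 := congrArg rho hαβγ
    simp only [map_add, map_mul, map_pow, rho_a, rho_b, rho_c, hr] at h1
    rw [hPF, e1, e2, map_mul, map_pow, rho_a]
    linear_combination (-va ^ (n + 1)) * h1
  generalize form (5 * n + 4) α β (va ^ (n + 1) * γ) = F at *
  have hspan : ∀ z, vc * z ∈ Xt (n + 1) ⊔ Ideal.span {vc} := fun z =>
    Ideal.mem_sup_right (Ideal.mul_mem_right _ _ (Ideal.mem_span_singleton_self _))
  refine ⟨F, ?_, ?_⟩
  · intro hF
    obtain ⟨G, hG, W, hW, hGW⟩ := Submodule.mem_sup.1 hF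
    obtain ⟨H, rfl⟩ := Ideal.mem_span_singleton'.1 hW
    have h1 : vc * (va ^ (n + 1) * h') = vc * Phi (n + 1) H := by
      rw [← hPhi, ← hGW, Phi_add, Phi_Xt _ _ hG, zero_add, mul_comm H vc, Phi_c]
    have h2 : va ^ (n + 1) * h' = Phi (n + 1) H := mul_left_cancel₀ vc_ne h1
    rw [Phi, e1, e2] at h2
    generalize val 1 0 (5 * (n + 1) + 1) H = z1 at *
    generalize val 0 1 (5 * (n + 1) + 1) H = z2 at *
    generalize val 1 1 (5 * (n + 1) + 1) H = z3 at *
    have h3 : va ^ (n + 1) ∣ vd ^ (n + 1) * z3 :=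
      ⟨h' - va ^ (n + 1) * z1 - vb ^ (n + 1) * z2, by linear_combination -h2⟩
    obtain ⟨z4, hz4⟩ : va ^ (n + 1) ∣ z3 := by
      refine prime_a.pow_dvd_of_dvd_mul_left _ ?_ h3
      intro h; exact a_ndvd_d (prime_a.dvd_of_dvd_pow h)
    apply hn
    refine ⟨z1, z2, z4, ?_⟩
    apply mul_left_cancel₀ hA
    rw [h2, hz4]; ring
  · intro r hrmem
    rcases hrmem with rfl | rfl | rfl | rfl | rfl
    · -- `a^t`
      have h1 : va ^ (n + 1) * F + vc * form (5 * n + 4) h' 0 0 ∈ Xt (n + 1) := by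
        apply mem_Xt_of_Phi
        · exact add_mem (Ideal.mul_mem_left _ _ hFP)
            (Ideal.mul_mem_left _ _ (form_mem (5 * n + 4) _ _ _))
        · have hpow : ∀ (m : ℕ), Phi (n + 1) (va ^ m * F) = va ^ m * Phi (n + 1) F := by
            intro m
            induction m with
            | zero => simp
            | succ m ih => rw [pow_succ', mul_assoc, Phi_a, ih, mul_assoc]
          rw [Phi_add, hpow, Phi_c, Phi_form, hPhi, hr, map_zero, e1]
          have := add_self (vc * (va ^ (n + 1) * va ^ (n + 1)) * h')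
          linear_combination this
      have h2 : va ^ (n + 1) * F = (va ^ (n + 1) * F + vc * form (5 * n + 4) h' 0 0)
          - vc * form (5 * n + 4) h' 0 0 := by ring
      rw [h2]
      exact sub_mem (Ideal.mem_sup_left h1) (hspan _)
    · -- `b^t`
      have h1 : vb ^ (n + 1) * F + vc * form (5 * n + 4) 0 h' 0 ∈ Xt (n + 1) := by
        apply mem_Xt_of_Phi
        · exact add_mem (Ideal.mul_mem_left _ _ hFP)
            (Ideal.mul_mem_left _ _ (form_mem (5 * n + 4) _ _ _))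
        · have hpow : ∀ (m : ℕ), Phi (n + 1) (vb ^ m * F) = vb ^ m * Phi (n + 1) F := by
            intro m
            induction m with
            | zero => simp
            | succ m ih => rw [pow_succ', mul_assoc, Phi_b, ih, mul_assoc]
          rw [Phi_add, hpow, Phi_c, Phi_form, hPhi, hr, map_zero, e2]
          have := add_self (vc * (va ^ (n + 1) * vb ^ (n + 1)) * h')
          linear_combination this
      have h2 : vb ^ (n + 1) * F = (vb ^ (n + 1) * F + vc * form (5 * n + 4) 0 h' 0)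
          - vc * form (5 * n + 4) 0 h' 0 := by ring
      rw [h2]
      exact sub_mem (Ideal.mem_sup_left h1) (hspan _)
    · exact hspan _
    · refine Ideal.mem_sup_left (P_pow_le_Xt (n + 1) ?_)
      rw [show 5 * (n + 1) + 2 = 1 + (5 * (n + 1) + 1) by ring, pow_add (P : Ideal S), pow_one]
      exact Ideal.mul_mem_mul hx hFP
    · refine Ideal.mem_sup_left (P_pow_le_Xt (n + 1) ?_)
      rw [show 5 * (n + 1) + 2 = 1 + (5 * (n + 1) + 1) by ring, pow_add (P : Ideal S), pow_one]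
      exact Ideal.mul_mem_mul hy hFP

/-- The irrelevant ideal. -/
def mm : Ideal S := RingHom.ker (constantCoeff : S →+* ZMod 2)

lemma mm_le (I : Ideal S) (h : ∀ i : Fin 5, (X i : S) ∈ I) : mm ≤ I := by
  intro F hF
  have h1 : F ∈ idealOfVars (Fin 5) (ZMod 2) := by
    have := (mem_pow_idealOfVars_iff' 1 F).2 ?_
    · simpa using this
    · intro x hx
      have hx0 : x = 0 := by
        have : x.degree = 0 := by omega
        rwa [Finsupp.degree_eq_zero_iff] at this
      rw [hx0]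
      exact hF
  have h2 : idealOfVars (Fin 5) (ZMod 2) ≤ I := by
    rw [Ideal.span_le]
    rintro _ ⟨i, rfl⟩
    exact h i
  exact h2 h1

lemma length_le_one_of_obstruction (n : ℕ) (h' : S) (hr : rho h' = h') (hn : ¬ It (n + 1) h')
    (hc : It (n + 1) (vc * h')) (rs : List S) (hrs : ∀ r ∈ rs, constantCoeff r = 0)
    (hreg : RingTheory.Sequence.IsWeaklyRegular (S ⧸ Xt (n + 1)) rs) : rs.length ≤ 1 := by
  obtain ⟨F, hF, hk⟩ := exists_obstruction n h' hr hn hc
  refine length_le_one (Xt (n + 1)) mm vc F (c_regular (n + 1)) hF ?_ rs hrs hreg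
  intro r hr'
  let J : Ideal S := (Xt (n + 1) ⊔ Ideal.span {vc}).colon {F}
  have hJ : ∀ z, z ∈ J ↔ z * F ∈ Xt (n + 1) ⊔ Ideal.span {vc} := by
    intro z
    simp only [J]
    rw [Submodule.mem_colon_singleton]
    rfl
  have hle : mm ≤ J.radical := by
    apply mm_le
    intro i
    fin_cases i
    · exact ⟨n + 1, (hJ _).2 (hk (va ^ (n + 1)) (by simp))⟩
    · exact ⟨n + 1, (hJ _).2 (hk (vb ^ (n + 1)) (by simp))⟩
    · exact ⟨1, (hJ _).2 (by rw [pow_one]; exact hk vc (by simp))⟩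
    · exact ⟨1, (hJ _).2 (by rw [pow_one]; exact hk vx (by simp))⟩
    · exact ⟨1, (hJ _).2 (by rw [pow_one]; exact hk vy (by simp))⟩
  obtain ⟨k, hk'⟩ := hle hr'
  exact ⟨k, (hJ _).1 hk'⟩

end

end Pool.Agent.P0d2d15
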