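import Pool.Agent.Lib.P0d2d15.Sat

set_option autoImplicit false

/-!
For `t` a power of two, `c, a` is a regular sequence on `S / Xt t`.
-/

namespace Pool.Agent.P0d2d15

open MvPolynomial

noncomputable section

/-- `c ↦ 0`. -/
def kap : S →ₐ[ZMod 2] S := aeval ![va, vb, 0, vx, vy]

@[simp] lemma kap_a : kap va = va := by simp [kap]
@[simp] lemma kap_b : kap vb = vb := by simp [kap]
@[simp] lemma kap_c : kap vc = 0 := by simp [kap]
@[simp] lemma kap_x : kap vx = vx := by simp [kap]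
@[simp] lemma kap_y : kap vy = vy := by simp [kap]

lemma c_dvd_sub_kap (F : S) : vc ∣ F - kap F := by
  induction F using MvPolynomial.induction_on with
  | C r =>
    have : kap (C r) = C r := by
      rw [show (C r : S) = algebraMap (ZMod 2) S r from rfl, AlgHom.commutes]
    rw [this, sub_self]; exact dvd_zero _
  | add p q hp hq =>
    rw [map_add, add_sub_add_comm]; exact dvd_add hp hq
  | mul_X p i hp =>
    have key : vc ∣ (X i : S) - kap (X i) := by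
      fin_cases i
      · show vc ∣ va - kap va
        simp
      · show vc ∣ vb - kap vb
        simp
      · show vc ∣ vc - kap vc
        simp
      · show vc ∣ vx - kap vx
        simp
      · show vc ∣ vy - kap vy
        simp
    have : p * X i - kap (p * X i) = p * (X i - kap (X i)) + (p - kap p) * kap (X i) := by
      rw [map_mul]; ring
    rw [this]
    exact dvd_add (Dvd.dvd.mul_left key _) (Dvd.dvd.mul_right hp _)

lemma exists_kap (F : S) : ∃ D, F = kap F + vc * D := by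
  obtain ⟨D, hD⟩ := c_dvd_sub_kap F
  exact ⟨D, by linear_combination hD⟩

lemma kap_P_pow (n : ℕ) (F : S) (hF : F ∈ P ^ n) : kap F ∈ P ^ n := by
  have h1 : (P ^ n).map (kap : S →+* S) ≤ P ^ n := by
    rw [Ideal.map_pow]
    apply Ideal.pow_right_mono
    rw [P, Ideal.map_span, Ideal.span_le]
    rintro z ⟨w, hw, rfl⟩
    rcases hw with rfl | rfl
    · show kap vx ∈ P
      rw [kap_x]; exact hx
    · show kap vy ∈ P
      rw [kap_y]; exact hy
  exact h1 (Ideal.mem_map_of_mem _ hF)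

lemma prime_a : Prime va := X_prime
lemma prime_b : Prime vb := X_prime
lemma prime_c : Prime vc := X_prime

lemma not_dvd_of_eval (i : Fin 5) (F : S) (p : Fin 5 → ZMod 2) (hp : p i = 0)
    (hF : MvPolynomial.eval p F ≠ 0) : ¬ (X i : S) ∣ F := by
  rintro ⟨G, rfl⟩
  apply hF
  rw [map_mul, eval_X, hp, zero_mul]

lemma a_ndvd_b : ¬ va ∣ vb :=
  not_dvd_of_eval 0 vb ![0, 1, 0, 0, 0] rfl (by simp)
lemma a_ndvd_d : ¬ va ∣ vd :=
  not_dvd_of_eval 0 vd ![0, 1, 0, 0, 0] rfl (by simp)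
lemma b_ndvd_a : ¬ vb ∣ va :=
  not_dvd_of_eval 1 va ![1, 0, 0, 0, 0] rfl (by simp)
lemma b_ndvd_d : ¬ vb ∣ vd :=
  not_dvd_of_eval 1 vd ![1, 0, 1, 0, 0] rfl (by simp)
lemma c_ndvd_a : ¬ vc ∣ va :=
  not_dvd_of_eval 2 va ![1, 0, 0, 0, 0] rfl (by simp)

lemma kap_d : kap vd = vb ^ 2 := by
  simp only [vd, map_add, map_mul, map_pow, kap_a, kap_b, kap_c, mul_zero, add_zero]

/-- The module-theoretic heart, positive case. -/
lemma at_saturated (e : ℕ) (ω α β γ : S)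
    (h : vc * ω = α * w1 ^ (2 ^ e) + β * w2 ^ (2 ^ e) + γ * w3 ^ (2 ^ e)) :
    ∃ α' β' γ', ω = α' * w1 ^ (2 ^ e) + β' * w2 ^ (2 ^ e) + γ' * w3 ^ (2 ^ e) := by
  obtain ⟨s, hs⟩ : ∃ s, 2 ^ e = s + 1 := ⟨2 ^ e - 1, by have := Nat.two_pow_pos e; omega⟩
  have e1 : (w1 : S) ^ (2 ^ e) = va ^ (2 ^ e) * va ^ (2 ^ e) := by
    rw [← mul_pow]; congr 1; ring
  have e2 : (w2 : S) ^ (2 ^ e) = va ^ (2 ^ e) * vb ^ (2 ^ e) := by
    rw [← mul_pow]
  have e3 : (w3 : S) ^ (2 ^ e) = vb ^ (2 ^ e) * vb ^ (2 ^ e) + va ^ (2 ^ e) * vc ^ (2 ^ e) := by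
    have := add_pow_char_pow (vb ^ 2) (va * vc) (p := 2) (n := e)
    rw [this, mul_pow, ← mul_pow]; congr 2; ring
  have ec : vc ^ (2 ^ e) = vc * vc ^ s := by rw [hs, pow_succ']
  have kA : kap (va ^ (2 ^ e)) = va ^ (2 ^ e) := by rw [map_pow, kap_a]
  have kB : kap (vb ^ (2 ^ e)) = vb ^ (2 ^ e) := by rw [map_pow, kap_b]
  have hA : (va : S) ^ (2 ^ e) ≠ 0 := pow_ne_zero _ va_ne
  have hB : (vb : S) ^ (2 ^ e) ≠ 0 := pow_ne_zero _ vb_ne
  have dAB : ∀ z, va ^ (2 ^ e) ∣ vb ^ (2 ^ e) * z → va ^ (2 ^ e) ∣ z := by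
    intro z hz
    refine prime_a.pow_dvd_of_dvd_mul_left _ ?_ hz
    intro h; exact a_ndvd_b (prime_a.dvd_of_dvd_pow h)
  rw [e1, e2, e3, ec]
  rw [e1, e2, e3, ec] at h
  generalize (va : S) ^ (2 ^ e) = A at *
  generalize (vb : S) ^ (2 ^ e) = B at *
  have hk := congrArg kap h
  simp only [map_mul, map_add, kap_c, kA, kB, zero_mul, mul_zero, add_zero] at hk
  obtain ⟨α', hα⟩ := exists_kap α
  obtain ⟨β', hβ⟩ := exists_kap β
  obtain ⟨γ', hγ⟩ := exists_kap γ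
  generalize kap α = α0 at *
  generalize kap β = β0 at *
  generalize kap γ = γ0 at *
  have d1 : A ∣ γ0 := by
    apply dAB; apply dAB
    refine ⟨-(α0 * A + β0 * B), ?_⟩
    linear_combination -hk
  obtain ⟨γ1, hγ1⟩ := d1
  have hk2 : α0 * A + β0 * B + γ1 * (B * B) = 0 := by
    apply mul_left_cancel₀ hA
    rw [hγ1] at hk
    linear_combination -hk
  have d2 : A ∣ β0 + γ1 * B := by
    apply dAB
    refine ⟨-α0, ?_⟩
    linear_combination hk2
  obtain ⟨β1, hβ1⟩ := d2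
  have hα0 : α0 = -(B * β1) := by
    apply mul_left_cancel₀ hA
    linear_combination hk2 - B * hβ1
  have hβ0 : β0 = A * β1 - γ1 * B := by linear_combination hβ1
  refine ⟨γ1 * vc ^ s + α', β', γ', ?_⟩
  apply mul_left_cancel₀ vc_ne
  rw [h, hα, hβ, hγ, hα0, hβ0, hγ1]
  ring

/-- The functional of the three-point condition in degree `5t+1`. -/
def Phi (t : ℕ) (F : S) : S :=
  w1 ^ t * val 1 0 (5 * t + 1) F + w2 ^ t * val 0 1 (5 * t + 1) F +
    w3 ^ t * val 1 1 (5 * t + 1) F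

lemma Phi_add (t : ℕ) (F G : S) : Phi t (F + G) = Phi t F + Phi t G := by
  simp only [Phi, val_add]; ring

lemma Phi_a (t : ℕ) (F : S) : Phi t (va * F) = va * Phi t F := by
  simp only [Phi, val_a_mul]; ring

lemma Phi_b (t : ℕ) (F : S) : Phi t (vb * F) = vb * Phi t F := by
  simp only [Phi, val_b_mul]; ring

lemma Phi_c (t : ℕ) (F : S) : Phi t (vc * F) = vc * Phi t F := by
  simp only [Phi, val_c_mul]; ring

lemma Phi_Xt (t : ℕ) (F : S) (hF : F ∈ Xt t) : Phi t F = 0 := hF.2.2.2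

lemma rho_Phi (t : ℕ) (F : S) : rho (Phi t F) = Phi t F := by
  simp only [Phi, map_add, map_mul, map_pow, rho_a, rho_b, rho_c]
  rw [rho_val 1 0 (map_one _) (map_zero _), rho_val 0 1 (map_zero _) (map_one _),
    rho_val 1 1 (map_one _) (map_one _)]

/-- A form of `(x,y)`-degree `m+2` with prescribed values. -/
def form (m : ℕ) (r1 r2 r3 : S) : S :=
  r1 * (vx ^ (m + 2) + vx ^ (m + 1) * vy) + (r2 * (vy ^ (m + 2) + vx ^ (m + 1) * vy) +
    r3 * (vx ^ (m + 1) * vy))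

lemma x_pow_mem (m : ℕ) : vx ^ m ∈ P ^ m := Ideal.pow_mem_pow hx m
lemma y_pow_mem (m : ℕ) : vy ^ m ∈ P ^ m := Ideal.pow_mem_pow hy m
lemma xy_pow_mem (m : ℕ) : vx ^ (m + 1) * vy ∈ P ^ (m + 2) := by
  rw [show m + 2 = (m + 1) + 1 from rfl, pow_succ (P : Ideal S)]
  exact Ideal.mul_mem_mul (x_pow_mem _) hy

lemma val_x_pow (p q : S) (m : ℕ) : val p q m (vx ^ m) = p ^ m := by
  rw [val, map_pow, ev_x, mul_pow, ← map_pow, Polynomial.coeff_C_mul_X_pow, if_pos rfl]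
lemma val_y_pow (p q : S) (m : ℕ) : val p q m (vy ^ m) = q ^ m := by
  rw [val, map_pow, ev_y, mul_pow, ← map_pow, Polynomial.coeff_C_mul_X_pow, if_pos rfl]
lemma val_xy_pow (p q : S) (m : ℕ) : val p q (m + 2) (vx ^ (m + 1) * vy) = p ^ (m + 1) * q := by
  rw [val, map_mul, map_pow, ev_x, ev_y]
  have : (Polynomial.C p * Polynomial.X) ^ (m + 1) * (Polynomial.C q * Polynomial.X) =
    Polynomial.C (p ^ (m + 1) * q) * Polynomial.X ^ (m + 2) := by
    rw [map_mul, map_pow]; ring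
  rw [this, Polynomial.coeff_C_mul_X_pow, if_pos rfl]

lemma form_mem (m : ℕ) (r1 r2 r3 : S) : form m r1 r2 r3 ∈ P ^ (m + 2) := by
  refine add_mem (Ideal.mul_mem_left _ _ (add_mem (x_pow_mem _) (xy_pow_mem _)))
    (add_mem (Ideal.mul_mem_left _ _ (add_mem (y_pow_mem _) (xy_pow_mem _)))
    (Ideal.mul_mem_left _ _ (xy_pow_mem _)))

lemma val_form (p q : S) (m : ℕ) (r1 r2 r3 : S) : val p q (m + 2) (form m r1 r2 r3) =
    rho r1 * (p ^ (m + 2) + p ^ (m + 1) * q) + (rho r2 * (q ^ (m + 2) + p ^ (m + 1) * q) +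
      rho r3 * (p ^ (m + 1) * q)) := by
  rw [form, val_add, val_add, val_scalar_mul _ _ _ _ _ (add_mem (x_pow_mem _) (xy_pow_mem _)),
    val_scalar_mul _ _ _ _ _ (add_mem (y_pow_mem _) (xy_pow_mem _)),
    val_scalar_mul _ _ _ _ _ (xy_pow_mem _), val_add, val_add, val_x_pow, val_y_pow, val_xy_pow]

lemma val_form_1 (m : ℕ) (r1 r2 r3 : S) : val 1 0 (m + 2) (form m r1 r2 r3) = rho r1 := by
  rw [val_form]; simp
lemma val_form_2 (m : ℕ) (r1 r2 r3 : S) : val 0 1 (m + 2) (form m r1 r2 r3) = rho r2 := by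
  rw [val_form]; simp
lemma val_form_3 (m : ℕ) (r1 r2 r3 : S) : val 1 1 (m + 2) (form m r1 r2 r3) = rho r3 := by
  rw [val_form]
  have := two_eq_zero
  simp only [one_pow, mul_one]
  linear_combination (rho r1 + rho r2) * this

lemma mem_Xt_of_Phi (t : ℕ) (F : S) (hF : F ∈ P ^ (5 * t + 1)) (h : Phi t F = 0) : F ∈ Xt t := by
  refine ⟨Ideal.pow_le_pow_right (by omega) hF, ?_, ?_, h⟩
  · rw [val_eq_zero 1 0 _ _ F hF (by omega), val_eq_zero 0 1 _ _ F hF (by omega)]; simp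
  · rw [val_eq_zero 1 0 _ _ F hF (by omega), val_eq_zero 1 1 _ _ F hF (by omega)]; simp

/-- the `Phi` of a form, for positive `t`. -/
lemma Phi_form (n : ℕ) (r1 r2 r3 : S) : Phi (n + 1) (form (5 * n + 4) r1 r2 r3) =
    w1 ^ (n + 1) * rho r1 + w2 ^ (n + 1) * rho r2 + w3 ^ (n + 1) * rho r3 := by
  have e : 5 * (n + 1) + 1 = (5 * n + 4) + 2 := by ring
  rw [Phi, e, val_form_1, val_form_2, val_form_3]

lemma sub_eq' (z w : S) : z - w = z + w := sub_eq z w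

/-- Values of elements of `Xt t` in degree `5t` are proportional to `(u1^t,u2^t,u3^t)`. -/
lemma Xt_values (t : ℕ) (G : S) (hG : G ∈ Xt t) : ∃ κ,
    val 1 0 (5 * t) G = u1 ^ t * κ ∧ val 0 1 (5 * t) G = u2 ^ t * κ ∧
    val 1 1 (5 * t) G = u3 ^ t * κ := by
  obtain ⟨_, h1, h2, _⟩ := hG
  generalize val 1 0 (5 * t) G = γ1 at *
  generalize val 0 1 (5 * t) G = γ2 at *
  generalize val 1 1 (5 * t) G = γ3 at *
  have e1 : (w1 : S) ^ t = va ^ t * va ^ t := by rw [← mul_pow]; congr 1; ring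
  have e2 : (w2 : S) ^ t = va ^ t * vb ^ t := by rw [← mul_pow]
  have e4 : (u1 : S) ^ t = vb ^ t * vd ^ t := by rw [← mul_pow]
  have e5 : (u2 : S) ^ t = va ^ t * vd ^ t := by rw [← mul_pow]
  have e6 : (u3 : S) ^ t = va ^ t * va ^ t * vb ^ t := by
    rw [← mul_pow, ← mul_pow]; congr 1; ring
  have e7 : (w3 : S) ^ t = vd ^ t := rfl
  have hA : (va : S) ^ t ≠ 0 := pow_ne_zero _ va_ne
  have hB : (vb : S) ^ t ≠ 0 := pow_ne_zero _ vb_ne
  have dAD : ∀ z, va ^ t ∣ vd ^ t * z → va ^ t ∣ z := by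
    intro z hz
    refine prime_a.pow_dvd_of_dvd_mul_left _ ?_ hz
    intro h; exact a_ndvd_d (prime_a.dvd_of_dvd_pow h)
  have dBA : ∀ z, vb ^ t ∣ va ^ t * z → vb ^ t ∣ z := by
    intro z hz
    refine prime_b.pow_dvd_of_dvd_mul_left _ ?_ hz
    intro h; exact b_ndvd_a (prime_b.dvd_of_dvd_pow h)
  have dBD : ∀ z, vb ^ t ∣ vd ^ t * z → vb ^ t ∣ z := by
    intro z hz
    refine prime_b.pow_dvd_of_dvd_mul_left _ ?_ hz
    intro h; exact b_ndvd_d (prime_b.dvd_of_dvd_pow h)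
  rw [e1, e2] at h1
  rw [e1, e7] at h2
  rw [e4, e5, e6]
  generalize (va : S) ^ t = A at *
  generalize (vb : S) ^ t = B at *
  generalize (vd : S) ^ t = D at *
  have h3 : A * γ1 = B * γ2 := by
    apply mul_left_cancel₀ hA; linear_combination h1
  obtain ⟨δ1, hδ1⟩ := dAD γ3 ⟨A * γ1, by linear_combination -h2⟩
  have h4 : A * γ1 = D * δ1 := by
    apply mul_left_cancel₀ hA
    rw [hδ1] at h2; linear_combination h2
  obtain ⟨δ2, hδ2⟩ := dAD δ1 ⟨γ1, by linear_combination -h4⟩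
  have h5 : γ1 = D * δ2 := by
    apply mul_left_cancel₀ hA
    rw [hδ2] at h4; linear_combination h4
  obtain ⟨κ, hκ⟩ := dBD δ2 (dBA _ ⟨γ2, by rw [← h3, h5]⟩)
  refine ⟨κ, ?_, ?_, ?_⟩
  · rw [h5, hκ]; ring
  · apply mul_left_cancel₀ hB
    rw [← h3, h5, hκ]; ring
  · rw [hδ1, hδ2, hκ]; ring

/-- `c` is a nonzerodivisor modulo `Xt t`. -/
lemma c_regular (t : ℕ) (z : S) (h : vc * z ∈ Xt t) : z ∈ Xt t := by
  refine Xt_primary t vc z ?_ h
  rw [mem_P_iff, rho_c]; exact vc_ne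

lemma reg_step2 (e : ℕ) (F : S) (hF : F ∈ P ^ (5 * 2 ^ e + 1))
    (h : va * F ∈ Xt (2 ^ e) ⊔ Ideal.span {vc}) : F ∈ Xt (2 ^ e) ⊔ Ideal.span {vc} := by
  obtain ⟨G, hG, W, hW, hGW⟩ := Submodule.mem_sup.1 h
  obtain ⟨H, rfl⟩ := Ideal.mem_span_singleton'.1 hW
  obtain ⟨n, hn⟩ : ∃ n, 2 ^ e = n + 1 := ⟨2 ^ e - 1, by have := Nat.two_pow_pos e; omega⟩
  have h1 : va * Phi (2 ^ e) F = vc * Phi (2 ^ e) H := by
    rw [← Phi_a, ← Phi_c, ← hGW, Phi_add, Phi_Xt _ _ hG, zero_add, mul_comm vc H]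
  have h2 : vc ∣ Phi (2 ^ e) F :=
    (prime_c.dvd_or_dvd (Dvd.intro _ h1.symm)).resolve_left c_ndvd_a
  obtain ⟨ω, hω⟩ := h2
  have hω' : rho ω = ω := by
    apply mul_left_cancel₀ vc_ne
    rw [← hω, ← rho_Phi, hω, map_mul, rho_c]
  obtain ⟨α, β, γ, hαβγ⟩ := at_saturated e ω (val 1 0 (5 * 2 ^ e + 1) F)
    (val 0 1 (5 * 2 ^ e + 1) F) (val 1 1 (5 * 2 ^ e + 1) F) (by rw [← hω, Phi]; ring)
  have hform : form (5 * n + 4) α β γ ∈ P ^ (5 * 2 ^ e + 1) := by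
    rw [hn]; exact form_mem _ _ _ _
  have hPf : Phi (2 ^ e) (form (5 * n + 4) α β γ) = ω := by
    have := Phi_form n α β γ
    rw [← hn] at this
    rw [this, ← hω', hαβγ]
    simp only [map_add, map_mul, map_pow, rho_a, rho_b, rho_c]
    ring
  have h3 : F + vc * form (5 * n + 4) α β γ ∈ Xt (2 ^ e) := by
    apply mem_Xt_of_Phi _ _ (add_mem hF (Ideal.mul_mem_left _ _ hform))
    rw [Phi_add, Phi_c, hPf, hω, add_self]
  have h4 : F = (F + vc * form (5 * n + 4) α β γ) + (- form (5 * n + 4) α β γ) * vc := by ring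
  rw [h4]
  exact add_mem (Ideal.mem_sup_left h3)
    (Ideal.mem_sup_right (Ideal.mul_mem_left _ _ (Ideal.mem_span_singleton_self _)))

lemma reg_step1 (e : ℕ) (F G H : S) (hF : F ∈ P ^ (5 * 2 ^ e)) (hG : G ∈ Xt (2 ^ e))
    (hGH : va * F = G + vc * H) : F ∈ Xt (2 ^ e) ⊔ Ideal.span {vc} := by
  have haF : va * F ∈ Xt (2 ^ e) ⊔ Ideal.span {vc} := by
    rw [hGH]
    exact add_mem (Ideal.mem_sup_left hG)
      (Ideal.mem_sup_right (Ideal.mul_mem_right _ _ (Ideal.mem_span_singleton_self _)))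
  obtain ⟨κ, k1, k2, k3⟩ := Xt_values _ G hG
  have hv : ∀ p q : S, va * val p q (5 * 2 ^ e) F =
      val p q (5 * 2 ^ e) G + vc * val p q (5 * 2 ^ e) H := by
    intro p q
    rw [← val_a_mul, ← val_c_mul, ← val_add, hGH]
  have hstep := reg_step2 e
  have hf := f0_pow_mem_Xt (2 ^ e)
  have hfP := f0_pow_mem_P (2 ^ e)
  have v1 := val_f0_pow_1 (2 ^ e)
  have v2 := val_f0_pow_2 (2 ^ e)
  have v3 := val_f0_pow_3 (2 ^ e)
  obtain ⟨n, hn⟩ : ∃ n, 2 ^ e = n + 1 := ⟨2 ^ e - 1, by have := Nat.two_pow_pos e; omega⟩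
  have hgX : Ideal.span {g} * P ^ (5 * n + 2) ≤ Xt (2 ^ e) := gP_le_Xt _ _ (by omega)
  generalize ht : 2 ^ e = t at *
  have r1 : rho (val 1 0 (5 * t) F) = val 1 0 (5 * t) F :=
    rho_val 1 0 (map_one _) (map_zero _) _ _
  have r2 : rho (val 0 1 (5 * t) F) = val 0 1 (5 * t) F :=
    rho_val 0 1 (map_zero _) (map_one _) _ _
  have r3 : rho (val 1 1 (5 * t) F) = val 1 1 (5 * t) F :=
    rho_val 1 1 (map_one _) (map_one _) _ _
  have ru1 : rho (u1 ^ t) = u1 ^ t := by rw [map_pow, rho_u1]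
  have ru2 : rho (u2 ^ t) = u2 ^ t := by rw [map_pow, rho_u2]
  have ru3 : rho (u3 ^ t) = u3 ^ t := by rw [map_pow, rho_u3]
  -- divisibility of `κ` by `a` modulo `c`
  have hku : kap (u1 ^ t) = vb ^ (3 * t) := by
    rw [map_pow, map_mul, kap_b, kap_d, pow_mul]; congr 1; ring
  have hda : va ∣ kap κ := by
    have h1 := congrArg kap (hv 1 0)
    rw [k1] at h1
    simp only [map_add, map_mul, kap_a, kap_c, hku, zero_mul, add_zero] at h1
    have h2 : va ∣ vb ^ (3 * t) * kap κ := Dvd.intro _ h1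
    refine (prime_a.dvd_or_dvd h2).resolve_left ?_
    intro h; exact a_ndvd_b (prime_a.dvd_of_dvd_pow h)
  obtain ⟨κ1, hκ1⟩ := hda
  obtain ⟨κ2, hκ2⟩ := exists_kap κ
  rw [hκ1] at hκ2
  have hmain : ∀ (φ η U : S), va * φ = U * κ + vc * η → ∃ ρ, φ = U * κ1 + vc * ρ := by
    intro φ η U hφ
    have : va * (φ - U * κ1) = vc * (U * κ2 + η) := by
      rw [hκ2] at hφ; linear_combination hφ
    obtain ⟨ρ, hρ⟩ := (prime_c.dvd_or_dvd (Dvd.intro _ this.symm)).resolve_left c_ndvd_a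
    exact ⟨ρ, by linear_combination hρ⟩
  obtain ⟨ρ1, hρ1⟩ := hmain _ _ _ (by rw [← k1]; exact hv 1 0)
  obtain ⟨ρ2, hρ2⟩ := hmain _ _ _ (by rw [← k2]; exact hv 0 1)
  obtain ⟨ρ3, hρ3⟩ := hmain _ _ _ (by rw [← k3]; exact hv 1 1)
  generalize (u1 : S) ^ t = U1 at *
  generalize (u2 : S) ^ t = U2 at *
  generalize (u3 : S) ^ t = U3 at *
  generalize (f0 : S) ^ t = f at *
  have hform : form (5 * n + 3) ρ1 ρ2 ρ3 ∈ P ^ (5 * t) := by
    have := form_mem (5 * n + 3) ρ1 ρ2 ρ3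
    rwa [show 5 * n + 3 + 2 = 5 * t by omega] at this
  have w1' := val_form_1 (5 * n + 3) ρ1 ρ2 ρ3
  have w2' := val_form_2 (5 * n + 3) ρ1 ρ2 ρ3
  have w3' := val_form_3 (5 * n + 3) ρ1 ρ2 ρ3
  rw [show 5 * n + 3 + 2 = 5 * t by omega] at w1' w2' w3'
  generalize form (5 * n + 3) ρ1 ρ2 ρ3 = H' at *
  have hFP : F + (κ1 * f + vc * H') ∈ P ^ (5 * t) :=
    add_mem hF (add_mem (Ideal.mul_mem_left _ _ hfP) (Ideal.mul_mem_left _ _ hform))
  have hvF : ∀ p q, val p q (5 * t) (F + (κ1 * f + vc * H')) =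
      val p q (5 * t) F + (rho κ1 * val p q (5 * t) f + vc * val p q (5 * t) H') := by
    intro p q
    rw [val_add, val_add, val_scalar_mul _ _ _ _ _ hfP, val_c_mul]
  have hm := vals_zero (5 * n + 2) (F + (κ1 * f + vc * H'))
    (by rw [show 5 * n + 2 + 3 = 5 * t by omega]; exact hFP) ?_ ?_ ?_
  · obtain ⟨A, hA, B, hB, hAB⟩ := Submodule.mem_sup.1 hm
    have hBP : B ∈ P ^ (5 * t + 1) := by
      rw [show 5 * t + 1 = 5 * n + 2 + 4 by omega]; exact hB
    have hAX : A ∈ Xt t ⊔ Ideal.span {vc} := Ideal.mem_sup_left (hgX hA)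
    have hfX : κ1 * f ∈ Xt t ⊔ Ideal.span {vc} :=
      Ideal.mem_sup_left (Ideal.mul_mem_left _ _ hf)
    have hcX : vc * H' ∈ Xt t ⊔ Ideal.span {vc} :=
      Ideal.mem_sup_right (Ideal.mul_mem_right _ _ (Ideal.mem_span_singleton_self _))
    have hFB : F - B ∈ Xt t ⊔ Ideal.span {vc} := by
      have : F - B = A - (κ1 * f + vc * H') := by linear_combination -hAB
      rw [this]
      exact sub_mem hAX (add_mem hfX hcX)
    have haB : va * B ∈ Xt t ⊔ Ideal.span {vc} := by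
      have : va * B = va * F - va * (F - B) := by ring
      rw [this]
      exact sub_mem haF (Ideal.mul_mem_left _ _ hFB)
    have hBX := hstep B hBP haB
    have : F = (F - B) + B := by ring
    rw [this]
    exact add_mem hFB hBX
  · rw [show 5 * n + 2 + 3 = 5 * t by omega, hvF, v1, w1', ← r1, hρ1, map_add, map_mul, map_mul,
      rho_c, ru1]
    have := add_self (U1 * rho κ1 + vc * rho ρ1)
    linear_combination this
  · rw [show 5 * n + 2 + 3 = 5 * t by omega, hvF, v2, w2', ← r2, hρ2, map_add, map_mul, map_mul,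
      rho_c, ru2]
    have := add_self (U2 * rho κ1 + vc * rho ρ2)
    linear_combination this
  · rw [show 5 * n + 2 + 3 = 5 * t by omega, hvF, v3, w3', ← r3, hρ3, map_add, map_mul, map_mul,
      rho_c, ru3]
    have := add_self (U3 * rho κ1 + vc * rho ρ3)
    linear_combination this

/-- For `t` a power of two, `a` is regular modulo `Xt t + (c)`. -/
lemma a_regular (e : ℕ) (F : S) (h : va * F ∈ Xt (2 ^ e) ⊔ Ideal.span {vc}) :
    F ∈ Xt (2 ^ e) ⊔ Ideal.span {vc} := by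
  obtain ⟨G, hG, W, hW, hGW⟩ := Submodule.mem_sup.1 h
  obtain ⟨H, rfl⟩ := Ideal.mem_span_singleton'.1 hW
  have hGP : G ∈ P ^ (5 * 2 ^ e) := hG.1
  have h1 : kap F ∈ P ^ (5 * 2 ^ e) := by
    refine primary va _ _ ?_ ?_
    · rw [mem_P_iff, rho_a]; exact va_ne
    · have : va * kap F = kap G := by
        have := congrArg kap hGW
        simp only [map_add, map_mul, kap_c, kap_a, mul_zero, add_zero] at this
        exact this.symm
      rw [this]
      exact kap_P_pow _ _ hGP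
  obtain ⟨D, hD⟩ := exists_kap F
  have h2 := reg_step1 e (kap F) G (H - va * D) h1 hG (by linear_combination hGW.symm - va * hD)
  rw [hD]
  exact add_mem h2
    (Ideal.mem_sup_right (Ideal.mul_mem_right _ _ (Ideal.mem_span_singleton_self _)))

end

end Pool.Agent.P0d2d15
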