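import Pool.Agent.Lib.P0d2d15.Symb

set_option autoImplicit false

/-!
`Xt t` consists of elements some multiple of which (by an element outside `P`) lies in `Q ^ t`.
-/

namespace Pool.Agent.P0d2d15

open MvPolynomial

noncomputable section

lemma mono_step (m : ℕ) : vx ^ (m + 1) * vy * (vx + vy) ∈ Ideal.span {g} * P ^ m := by
  have h : vx ^ (m + 1) * vy * (vx + vy) = g * vx ^ m := by simp only [g]; ring
  rw [h]
  exact Ideal.mul_mem_mul (Ideal.mem_span_singleton_self _) (Ideal.pow_mem_pow hx m)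

lemma mono_y (m : ℕ) : vx * vy ^ (m + 2) + vx ^ (m + 2) * vy ∈ Ideal.span {g} * P ^ m := by
  induction m with
  | zero =>
    have h : vx * vy ^ (0 + 2) + vx ^ (0 + 2) * vy = g * 1 := by simp only [g]; ring
    rw [h]
    exact Ideal.mul_mem_mul (Ideal.mem_span_singleton_self _) (by simp)
  | succ n ih =>
    have h1 : vy * (vx * vy ^ (n + 2) + vx ^ (n + 2) * vy) ∈ Ideal.span {g} * P ^ (n + 1) := by
      have : Ideal.span {g} * P ^ (n + 1) = P * (Ideal.span {g} * P ^ n) := by ring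
      rw [this]
      exact Ideal.mul_mem_mul hy ih
    have h2 := mono_step (n + 1)
    have h3 := add_mem h1 h2
    have h4 : vy * (vx * vy ^ (n + 2) + vx ^ (n + 2) * vy) + vx ^ (n + 1 + 1) * vy * (vx + vy)
        = vx * vy ^ (n + 1 + 2) + vx ^ (n + 1 + 2) * vy := by
      have := add_self (vx ^ (n + 2) * vy ^ 2)
      linear_combination this
    rwa [h4] at h3

/-- Decomposition of the powers of `P` modulo `g`. -/
lemma P_pow_le (m : ℕ) :
    P ^ (m + 3) ≤ Ideal.span {vx ^ (m + 3), vy ^ (m + 3), vx ^ (m + 2) * vy} ⊔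
      Ideal.span {g} * P ^ m := by
  induction m with
  | zero =>
    set J := Ideal.span {vx ^ (0 + 3), vy ^ (0 + 3), vx ^ (0 + 2) * vy} ⊔
      Ideal.span {g} * P ^ 0 with hJ
    have hg : g ∈ J := by
      refine Ideal.mem_sup_right ?_
      simp
    have h1 : vx ^ 3 ∈ J := Ideal.mem_sup_left (Ideal.subset_span (by simp))
    have h2 : vy ^ 3 ∈ J := Ideal.mem_sup_left (Ideal.subset_span (by simp))
    have h3 : vx ^ 2 * vy ∈ J := Ideal.mem_sup_left (Ideal.subset_span (by simp))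
    have h4 : vx * vy ^ 2 ∈ J := by
      have := sub_mem hg h3
      have e : g - vx ^ 2 * vy = vx * vy ^ 2 := by simp only [g]; ring
      rwa [e] at this
    have e : P ^ (0 + 3) = P * (P * P) := by ring
    rw [e]
    show Ideal.span {vx, vy} * (Ideal.span {vx, vy} * Ideal.span {vx, vy}) ≤ J
    rw [Ideal.span_mul_span', Ideal.span_mul_span', Ideal.span_le]
    rintro z ⟨r, hr, w, ⟨r', hr', r'', hr'', rfl⟩, rfl⟩
    rcases hr with rfl | rfl <;> rcases hr' with rfl | rfl <;> rcases hr'' with rfl | rfl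
    · show vx * (vx * vx) ∈ J
      have : vx * (vx * vx) = vx ^ 3 := by ring
      rw [this]; exact h1
    · show vx * (vx * vy) ∈ J
      have : vx * (vx * vy) = vx ^ 2 * vy := by ring
      rw [this]; exact h3
    · show vx * (vy * vx) ∈ J
      have : vx * (vy * vx) = vx ^ 2 * vy := by ring
      rw [this]; exact h3
    · show vx * (vy * vy) ∈ J
      have : vx * (vy * vy) = vx * vy ^ 2 := by ring
      rw [this]; exact h4
    · show vy * (vx * vx) ∈ J
      have : vy * (vx * vx) = vx ^ 2 * vy := by ring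
      rw [this]; exact h3
    · show vy * (vx * vy) ∈ J
      have : vy * (vx * vy) = vx * vy ^ 2 := by ring
      rw [this]; exact h4
    · show vy * (vy * vx) ∈ J
      have : vy * (vy * vx) = vx * vy ^ 2 := by ring
      rw [this]; exact h4
    · show vy * (vy * vy) ∈ J
      have : vy * (vy * vy) = vy ^ 3 := by ring
      rw [this]; exact h2
  | succ n ih =>
    set J := Ideal.span {vx ^ (n + 1 + 3), vy ^ (n + 1 + 3), vx ^ (n + 1 + 2) * vy} ⊔
      Ideal.span {g} * P ^ (n + 1) with hJ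
    have h1 : vx ^ (n + 4) ∈ J := Ideal.mem_sup_left (Ideal.subset_span (by simp))
    have h2 : vy ^ (n + 4) ∈ J := Ideal.mem_sup_left (Ideal.subset_span (by simp))
    have h3 : vx ^ (n + 3) * vy ∈ J := Ideal.mem_sup_left (Ideal.subset_span (by simp))
    have h4 : vx * vy ^ (n + 3) ∈ J := by
      have h5 : vx * vy ^ (n + 1 + 2) + vx ^ (n + 1 + 2) * vy ∈ J :=
        Ideal.mem_sup_right (mono_y (n + 1))
      have := sub_mem h5 h3
      have e : vx * vy ^ (n + 1 + 2) + vx ^ (n + 1 + 2) * vy - vx ^ (n + 3) * vy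
        = vx * vy ^ (n + 3) := by ring
      rwa [e] at this
    have h5 : vx ^ (n + 2) * vy ^ 2 ∈ J := by
      have h6 : vx ^ (n + 1 + 1) * vy * (vx + vy) ∈ J := Ideal.mem_sup_right (mono_step (n + 1))
      have := sub_mem h6 h3
      have e : vx ^ (n + 1 + 1) * vy * (vx + vy) - vx ^ (n + 3) * vy
        = vx ^ (n + 2) * vy ^ 2 := by ring
      rwa [e] at this
    have e : P ^ (n + 1 + 3) = P ^ (n + 3) * P := by ring
    rw [e]
    refine (Ideal.mul_mono_left ih).trans ?_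
    rw [Ideal.sup_mul]
    refine sup_le ?_ ?_
    · show Ideal.span {vx ^ (n + 3), vy ^ (n + 3), vx ^ (n + 2) * vy} * Ideal.span {vx, vy} ≤ J
      rw [Ideal.span_mul_span', Ideal.span_le]
      rintro z ⟨r, hr, w, hw, rfl⟩
      rcases hr with rfl | rfl | rfl <;> rcases hw with rfl | rfl
      · show vx ^ (n + 3) * vx ∈ J
        have : vx ^ (n + 3) * vx = vx ^ (n + 4) := by ring
        rw [this]; exact h1
      · exact h3
      · show vy ^ (n + 3) * vx ∈ J
        have : vy ^ (n + 3) * vx = vx * vy ^ (n + 3) := by ring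
        rw [this]; exact h4
      · show vy ^ (n + 3) * vy ∈ J
        have : vy ^ (n + 3) * vy = vy ^ (n + 4) := by ring
        rw [this]; exact h2
      · show vx ^ (n + 2) * vy * vx ∈ J
        have : vx ^ (n + 2) * vy * vx = vx ^ (n + 3) * vy := by ring
        rw [this]; exact h3
      · show vx ^ (n + 2) * vy * vy ∈ J
        have : vx ^ (n + 2) * vy * vy = vx ^ (n + 2) * vy ^ 2 := by ring
        rw [this]; exact h5
    · have : Ideal.span {g} * P ^ n * P = Ideal.span {g} * P ^ (n + 1) := by ring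
      rw [this]
      exact le_sup_right

/-- If all three values vanish, the element is divisible by `g` up to higher order. -/
lemma vals_zero (m : ℕ) (H : S) (hH : H ∈ P ^ (m + 3)) (h1 : val 1 0 (m + 3) H = 0)
    (h2 : val 0 1 (m + 3) H = 0) (h3 : val 1 1 (m + 3) H = 0) :
    H ∈ Ideal.span {g} * P ^ m ⊔ P ^ (m + 4) := by
  obtain ⟨A, hA, G, hG, rfl⟩ := Submodule.mem_sup.1 (P_pow_le m hH)
  obtain ⟨α, β', hβ', rfl⟩ := Ideal.mem_span_insert.1 hA
  obtain ⟨β, γ', hγ', rfl⟩ := Ideal.mem_span_insert.1 hβ'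
  obtain ⟨γ, rfl⟩ := Ideal.mem_span_singleton'.1 hγ'
  have hxm : vx ^ (m + 3) ∈ P ^ (m + 3) := Ideal.pow_mem_pow hx _
  have hym : vy ^ (m + 3) ∈ P ^ (m + 3) := Ideal.pow_mem_pow hy _
  have hxym : vx ^ (m + 2) * vy ∈ P ^ (m + 3) := by
    rw [show m + 3 = (m + 2) + 1 from rfl, pow_succ (P : Ideal S)]
    exact Ideal.mul_mem_mul (Ideal.pow_mem_pow hx _) hy
  have hg : ∀ p q : S, ev p q g = 0 → val p q (m + 3) G = 0 := by
    intro p q hpq
    obtain ⟨G', _, rfl⟩ := Ideal.mem_span_singleton_mul.1 hG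
    rw [val, map_mul, hpq]; simp
  have key : ∀ (p q : S), ev p q g = 0 →
      val p q (m + 3) (α * vx ^ (m + 3) + (β * vy ^ (m + 3) + γ * (vx ^ (m + 2) * vy)) + G) =
      rho α * p ^ (m + 3) + rho β * q ^ (m + 3) + rho γ * (p ^ (m + 2) * q) := by
    intro p q hpq
    have k1 := (val_mul p q 0 (m + 3) α (vx ^ (m + 3)) (by simp) hxm).1
    have k2 := (val_mul p q 0 (m + 3) β (vy ^ (m + 3)) (by simp) hym).1
    have k3 := (val_mul p q 0 (m + 3) γ (vx ^ (m + 2) * vy) (by simp) hxym).1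
    rw [zero_add, val_zero_eq] at k1 k2 k3
    have e1 : val p q (m + 3) (vx ^ (m + 3)) = p ^ (m + 3) := by
      rw [val, map_pow, ev_x, mul_pow, ← map_pow, Polynomial.coeff_C_mul_X_pow, if_pos rfl]
    have e2 : val p q (m + 3) (vy ^ (m + 3)) = q ^ (m + 3) := by
      rw [val, map_pow, ev_y, mul_pow, ← map_pow, Polynomial.coeff_C_mul_X_pow, if_pos rfl]
    have e3 : val p q (m + 3) (vx ^ (m + 2) * vy) = p ^ (m + 2) * q := by
      rw [val, map_mul, map_pow, ev_x, ev_y]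
      have : (Polynomial.C p * Polynomial.X) ^ (m + 2) * (Polynomial.C q * Polynomial.X) =
        Polynomial.C (p ^ (m + 2) * q) * Polynomial.X ^ (m + 3) := by
        rw [map_mul, map_pow]; ring
      rw [this, Polynomial.coeff_C_mul_X_pow, if_pos rfl]
    rw [val_add, val_add, val_add, k1, k2, k3, e1, e2, e3, hg p q hpq]
    ring
  rw [key _ _ ev_g_1] at h1
  rw [key _ _ ev_g_2] at h2
  rw [key _ _ ev_g_3] at h3
  have a1 : rho α = 0 := by simpa using h1
  have a2 : rho β = 0 := by simpa using h2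
  have a3 : rho γ = 0 := by rw [a1, a2] at h3; simpa using h3
  rw [← mem_P_iff] at a1 a2 a3
  have e : P ^ (m + 4) = P * P ^ (m + 3) := by ring
  refine add_mem (Ideal.mem_sup_right ?_) (Ideal.mem_sup_left hG)
  rw [e]
  exact add_mem (Ideal.mul_mem_mul a1 hxm)
    (add_mem (Ideal.mul_mem_mul a2 hym) (Ideal.mul_mem_mul a3 hxym))

/-- The saturation of `Q ^ t` with respect to the complement of `P`. -/
def Sat (t : ℕ) : Ideal S where
  carrier := {F | ∃ s, s ∉ P ∧ s * F ∈ Q ^ t}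
  add_mem' := by
    rintro F G ⟨s, hs, hF⟩ ⟨s', hs', hG⟩
    refine ⟨s * s', P_prime.mul_notMem hs hs', ?_⟩
    have : s * s' * (F + G) = s' * (s * F) + s * (s' * G) := by ring
    rw [this]
    exact add_mem (Ideal.mul_mem_left _ _ hF) (Ideal.mul_mem_left _ _ hG)
  zero_mem' := ⟨1, by rw [← Ideal.ne_top_iff_one]; exact P_prime.ne_top, by simp⟩
  smul_mem' := by
    rintro H F ⟨s, hs, hF⟩
    refine ⟨s, hs, ?_⟩
    have : s * (H • F) = H * (s * F) := by simp only [smul_eq_mul]; ring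
    rw [this]
    exact Ideal.mul_mem_left _ _ hF

lemma mem_Sat (t : ℕ) (F : S) : F ∈ Sat t ↔ ∃ s, s ∉ P ∧ s * F ∈ Q ^ t := Iff.rfl

lemma Q_pow_le_Sat (t : ℕ) : Q ^ t ≤ Sat t := by
  intro F hF
  exact ⟨1, by rw [← Ideal.ne_top_iff_one]; exact P_prime.ne_top, by simpa using hF⟩

lemma Sat_of_mul (t : ℕ) (s F : S) (hs : s ∉ P) (h : s * F ∈ Sat t) : F ∈ Sat t := by
  obtain ⟨s', hs', h'⟩ := h
  exact ⟨s' * s, P_prime.mul_notMem hs' hs, by rwa [mul_assoc]⟩

lemma Q_mul_Sat (t : ℕ) : Q * Sat t ≤ Sat (t + 1) := by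
  refine Ideal.mul_le.2 ?_
  rintro F hF G ⟨s, hs, hG⟩
  refine ⟨s, hs, ?_⟩
  have : s * (F * G) = (s * G) * F := by ring
  rw [this, pow_succ]
  exact Ideal.mul_mem_mul hG hF

lemma va_ne : (va : S) ≠ 0 := X_ne_zero 0
lemma vb_ne : (vb : S) ≠ 0 := X_ne_zero 1
lemma vc_ne : (vc : S) ≠ 0 := X_ne_zero 2

lemma vd_ne : (vd : S) ≠ 0 := by
  intro h
  have := congrArg (MvPolynomial.eval (fun i : Fin 5 => if i = 1 then (1 : ZMod 2) else 0)) h
  simp at this

lemma u1_ne : (u1 : S) ≠ 0 := mul_ne_zero vb_ne vd_ne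
lemma u2_ne : (u2 : S) ≠ 0 := mul_ne_zero va_ne vd_ne
lemma u3_ne : (u3 : S) ≠ 0 := mul_ne_zero (pow_ne_zero _ va_ne) vb_ne

lemma rho_d : rho vd = vd := by
  simp only [vd, map_add, map_mul, map_pow, rho_a, rho_b, rho_c]

lemma rho_u1 : rho u1 = u1 := by rw [map_mul, rho_b, rho_d]
lemma rho_u2 : rho u2 = u2 := by rw [map_mul, rho_a, rho_d]
lemma rho_u3 : rho u3 = u3 := by rw [map_mul, map_pow, rho_b, rho_a]
lemma rho_w1 : rho w1 = w1 := by rw [map_pow, rho_a]
lemma rho_w2 : rho w2 = w2 := by rw [map_mul, rho_a, rho_b]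
lemma rho_w3 : rho w3 = w3 := rho_d

lemma u1_notMem : u1 ∉ P := by rw [mem_P_iff, rho_u1]; exact u1_ne
lemma u2_notMem : u2 ∉ P := by rw [mem_P_iff, rho_u2]; exact u2_ne
lemma u3_notMem : u3 ∉ P := by rw [mem_P_iff, rho_u3]; exact u3_ne

lemma s1_notMem : (u1 * u2 * u3 : S) ∉ P :=
  P_prime.mul_notMem (P_prime.mul_notMem u1_notMem u2_notMem) u3_notMem

/-- After multiplying with `u1 u2 u3`, the power `P ^ 7` lands in `f0 P^2 + g P^4`. -/
lemma s1_P7 : Ideal.span {u1 * u2 * u3} * P ^ 7 ≤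
    Ideal.span {f0} * P ^ 2 ⊔ Ideal.span {g} * P ^ 4 := by
  set J := Ideal.span {f0} * P ^ 2 ⊔ Ideal.span {g} * P ^ 4 with hJ
  have hgJ : Ideal.span {g} * P ^ 4 ≤ J := le_sup_right
  have hfJ : ∀ H ∈ P ^ 2, f0 * H ∈ J := fun H hH =>
    Ideal.mem_sup_left (Ideal.mul_mem_mul (Ideal.mem_span_singleton_self _) hH)
  have hx := hx
  have hy := hy
  have m1 : vx * vy ^ 6 + vx ^ 6 * vy ∈ J := hgJ (mono_y 4)
  have m2 : vx ^ 5 * vy * (vx + vy) ∈ J := hgJ (mono_step 4)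
  have m3 : vx ^ 4 * vy ^ 2 * (vx + vy) ∈ J := by
    have h : vx ^ 4 * vy ^ 2 * (vx + vy) = g * (vx ^ 3 * vy) := by simp only [g]; ring
    rw [h]
    apply hgJ
    refine Ideal.mul_mem_mul (Ideal.mem_span_singleton_self _) ?_
    exact Ideal.mul_mem_mul (Ideal.pow_mem_pow hx 3) hy
  have m4 : vx ^ 3 * vy ^ 3 * (vx + vy) ∈ J := by
    have h : vx ^ 3 * vy ^ 3 * (vx + vy) = g * (vx ^ 2 * vy ^ 2) := by simp only [g]; ring
    rw [h]
    apply hgJ
    refine Ideal.mul_mem_mul (Ideal.mem_span_singleton_self _) ?_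
    have : P ^ 4 = P ^ 2 * P ^ 2 := by ring
    rw [this]
    exact Ideal.mul_mem_mul (Ideal.pow_mem_pow hx 2) (Ideal.pow_mem_pow hy 2)
  have m5 : vx ^ 2 * vy ^ 4 * (vx + vy) ∈ J := by
    have h : vx ^ 2 * vy ^ 4 * (vx + vy) = g * (vx * vy ^ 3) := by simp only [g]; ring
    rw [h]
    apply hgJ
    refine Ideal.mul_mem_mul (Ideal.mem_span_singleton_self _) ?_
    have : P ^ 4 = P * P ^ 3 := by ring
    rw [this]
    exact Ideal.mul_mem_mul hx (Ideal.pow_mem_pow hy 3)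
  -- the mixed monomial
  have f1 : f0 * (vx * vy) ∈ J := by
    apply hfJ; rw [pow_two]; exact Ideal.mul_mem_mul hx hy
  have f2 : f0 * (vx ^ 2) ∈ J := hfJ _ (Ideal.pow_mem_pow hx 2)
  have f3 : f0 * (vy ^ 2) ∈ J := hfJ _ (Ideal.pow_mem_pow hy 2)
  have h2 := two_eq_zero
  have k1 : u3 * (vx ^ 6 * vy) ∈ J := by
    have e : u3 * (vx ^ 6 * vy) = f0 * (vx * vy) + u2 * (vx * vy ^ 6 + vx ^ 6 * vy)
        + (u1 + u2 + u3) * (vx ^ 5 * vy * (vx + vy)) := by
      simp only [f0]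
      linear_combination (-(u1 + u2 + u3) * vx ^ 5 * vy ^ 2 - u2 * vx * vy ^ 6
        - u1 * vx ^ 6 * vy - u2 * vx ^ 6 * vy) * h2
    rw [e]
    exact add_mem (add_mem f1 (Ideal.mul_mem_left _ _ m1)) (Ideal.mul_mem_left _ _ m2)
  have k2 : u3 * (u1 * vx ^ 7) ∈ J := by
    -- x^2 y^5 = x^6 y modulo g
    have m6 : vx ^ 2 * vy ^ 5 + vx ^ 6 * vy ∈ J := by
      have e : vx ^ 2 * vy ^ 5 + vx ^ 6 * vy = vx ^ 2 * vy ^ 4 * (vx + vy)
        + vx ^ 3 * vy ^ 3 * (vx + vy) + vx ^ 4 * vy ^ 2 * (vx + vy) + vx ^ 5 * vy * (vx + vy) := by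
        linear_combination (-(vx ^ 3 * vy ^ 4) - vx ^ 4 * vy ^ 3 - vx ^ 5 * vy ^ 2) * h2
      rw [e]
      exact add_mem (add_mem (add_mem m5 m4) m3) m2
    have e : u3 * (u1 * vx ^ 7) = u3 * (f0 * vx ^ 2 + u2 * (vx ^ 2 * vy ^ 5 + vx ^ 6 * vy))
        + (u1 + u3) * (u3 * (vx ^ 6 * vy)) := by
      simp only [f0]
      linear_combination (-u3 * (u2 * vx ^ 2 * vy ^ 5) - u3 * (u1 + u2 + u3) * vx ^ 6 * vy) * h2
    rw [e]
    exact add_mem (Ideal.mul_mem_left _ _ (add_mem f2 (Ideal.mul_mem_left _ _ m6)))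
      (Ideal.mul_mem_left _ _ k1)
  have k3 : u3 * (u2 * vy ^ 7) ∈ J := by
    have m7 : vx ^ 5 * vy ^ 2 + vx ^ 6 * vy ∈ J := by
      have e : vx ^ 5 * vy ^ 2 + vx ^ 6 * vy = vx ^ 5 * vy * (vx + vy) := by ring
      rw [e]; exact m2
    have m8 : vx ^ 4 * vy ^ 3 + vx ^ 6 * vy ∈ J := by
      have e : vx ^ 4 * vy ^ 3 + vx ^ 6 * vy = vx ^ 4 * vy ^ 2 * (vx + vy)
        + vx ^ 5 * vy * (vx + vy) := by
        linear_combination (-(vx ^ 5 * vy ^ 2)) * h2
      rw [e]; exact add_mem m3 m2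
    have e : u3 * (u2 * vy ^ 7) = u3 * (f0 * vy ^ 2 + u1 * (vx ^ 5 * vy ^ 2 + vx ^ 6 * vy)
        + (u1 + u2 + u3) * (vx ^ 4 * vy ^ 3 + vx ^ 6 * vy))
        + (u2 + u3) * (u3 * (vx ^ 6 * vy)) := by
      simp only [f0]
      linear_combination (-u3 * (u1 * vx ^ 5 * vy ^ 2) - u3 * (u1 + u2 + u3) * vx ^ 4 * vy ^ 3
        - u3 * (u1 + u2 + u3) * vx ^ 6 * vy) * h2
    rw [e]
    exact add_mem (Ideal.mul_mem_left _ _ (add_mem (add_mem f3 (Ideal.mul_mem_left _ _ m7))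
      (Ideal.mul_mem_left _ _ m8))) (Ideal.mul_mem_left _ _ k1)
  intro F hF
  obtain ⟨H, hH, rfl⟩ := Ideal.mem_span_singleton_mul.1 hF
  obtain ⟨A, hA, G, hG, rfl⟩ := Submodule.mem_sup.1 (P_pow_le 4 hH)
  obtain ⟨α, β', hβ', rfl⟩ := Ideal.mem_span_insert.1 hA
  obtain ⟨β, γ', hγ', rfl⟩ := Ideal.mem_span_insert.1 hβ'
  obtain ⟨γ, rfl⟩ := Ideal.mem_span_singleton'.1 hγ'
  have e : u1 * u2 * u3 * (α * vx ^ (4 + 3) + (β * vy ^ (4 + 3) + γ * (vx ^ (4 + 2) * vy)) + G)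
      = (α * u2) * (u3 * (u1 * vx ^ 7)) + (β * u1) * (u3 * (u2 * vy ^ 7))
        + (γ * u1 * u2) * (u3 * (vx ^ 6 * vy)) + (u1 * u2 * u3) * G := by ring
  rw [e]
  exact add_mem (add_mem (add_mem (Ideal.mul_mem_left _ _ k2) (Ideal.mul_mem_left _ _ k3))
    (Ideal.mul_mem_left _ _ k1)) (Ideal.mul_mem_left _ _ (hgJ hG))

lemma Sat_of_span (t : ℕ) (s : S) (hs : s ∉ P) (I : Ideal S) (h : Ideal.span {s} * I ≤ Sat t) :
    I ≤ Sat t := by
  intro F hF
  exact Sat_of_mul t s F hs (h (Ideal.mul_mem_mul (Ideal.mem_span_singleton_self s) hF))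

lemma gP_le_Sat (n : ℕ) : Ideal.span {g} * P ^ (5 * n + 2) ≤ Sat (n + 1) := by
  induction n with
  | zero => exact (gP2_le_Q.trans (by simpa using Q_pow_le_Sat 1))
  | succ n ih =>
    apply Sat_of_span _ _ s1_notMem
    have e : Ideal.span {u1 * u2 * u3} * (Ideal.span {g} * P ^ (5 * (n + 1) + 2)) =
        (Ideal.span {g} * P ^ (5 * n)) * (Ideal.span {u1 * u2 * u3} * P ^ 7) := by
      have : P ^ (5 * (n + 1) + 2) = P ^ (5 * n) * P ^ 7 := by rw [← pow_add]; congr 1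
      rw [this]; ring
    rw [e]
    refine (Ideal.mul_mono_right s1_P7).trans ?_
    rw [Ideal.mul_sup]
    refine sup_le ?_ ?_
    · have e2 : Ideal.span {g} * P ^ (5 * n) * (Ideal.span {f0} * P ^ 2) =
          Ideal.span {f0} * (Ideal.span {g} * P ^ (5 * n + 2)) := by
        rw [pow_add]; ring
      rw [e2]
      refine (Ideal.mul_mono ?_ ih).trans (Q_mul_Sat (n + 1))
      rw [Ideal.span_singleton_le_iff_mem]
      exact f0_mem_Q
    · have e2 : Ideal.span {g} * P ^ (5 * n) * (Ideal.span {g} * P ^ 4) =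
          (Ideal.span {g} * P ^ 2) * (Ideal.span {g} * P ^ (5 * n + 2)) := by
        rw [pow_add]; ring
      rw [e2]
      exact (Ideal.mul_mono gP2_le_Q ih).trans (Q_mul_Sat (n + 1))

lemma P_pow_le_Sat (n : ℕ) : P ^ (5 * n + 7) ≤ Sat (n + 1) := by
  induction n with
  | zero => exact (P7_le_Q.trans (by simpa using Q_pow_le_Sat 1))
  | succ n ih =>
    apply Sat_of_span _ _ s1_notMem
    have e : Ideal.span {u1 * u2 * u3} * P ^ (5 * (n + 1) + 7) =
        P ^ (5 * n + 5) * (Ideal.span {u1 * u2 * u3} * P ^ 7) := by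
      have : P ^ (5 * (n + 1) + 7) = P ^ (5 * n + 5) * P ^ 7 := by rw [← pow_add]; congr 1
      rw [this]; ring
    rw [e]
    refine (Ideal.mul_mono_right s1_P7).trans ?_
    rw [Ideal.mul_sup]
    refine sup_le ?_ ?_
    · have e2 : P ^ (5 * n + 5) * (Ideal.span {f0} * P ^ 2) =
          Ideal.span {f0} * P ^ (5 * n + 7) := by
        rw [show 5 * n + 7 = (5 * n + 5) + 2 from rfl, pow_add _ (5 * n + 5) 2]; ring
      rw [e2]
      refine (Ideal.mul_mono ?_ ih).trans (Q_mul_Sat (n + 1))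
      rw [Ideal.span_singleton_le_iff_mem]
      exact f0_mem_Q
    · have e2 : P ^ (5 * n + 5) * (Ideal.span {g} * P ^ 4) =
          (Ideal.span {g} * P ^ (5 * (n + 1) + 2)) * P ^ 2 := by
        have : P ^ (5 * (n + 1) + 2) = P ^ (5 * n + 5) * P ^ 2 := by rw [← pow_add]; congr 1
        rw [this]; ring
      rw [e2]
      have h1 := gP_le_Sat (n + 1)
      generalize Ideal.span {g} * P ^ (5 * (n + 1) + 2) = K at *
      generalize Sat (n + 1 + 1) = K' at *
      exact le_trans Ideal.mul_le_left h1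

lemma alg3 (W1 W2 W3 U1 U2 U3 y1 y2 y3 : S) (e1 : W3 * U3 = W1 * U1) (e2 : W2 * U2 = W1 * U1)
    (h3 : W1 * y1 + W2 * y2 + W3 * y3 = 0) :
    W3 * (U1 * U2 * y3 + (U2 * y1 * 1 + U1 * y2 * 1) * U3) = 0 := by
  linear_combination (U2 * y1 + U1 * y2) * e1 + U1 * U2 * h3 - U1 * y2 * e2

lemma wu3 (t : ℕ) : (w3 : S) ^ t * u3 ^ t = w1 ^ t * u1 ^ t := by
  rw [← mul_pow, ← mul_pow]; congr 1; ring

lemma wu2 (t : ℕ) : (w2 : S) ^ t * u2 ^ t = w1 ^ t * u1 ^ t := by
  rw [← mul_pow, ← mul_pow]; congr 1; ring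

lemma f0_pow_mem_Sat (t : ℕ) : f0 ^ t ∈ Sat t := by
  have h : f0 ^ t ∈ Q ^ t := Ideal.pow_mem_pow f0_mem_Q t
  exact Q_pow_le_Sat t h

lemma u_pow_notMem {u : S} (hu : u ∉ P) (t : ℕ) : u ^ t ∉ P := by
  intro h; exact hu (P_prime.mem_of_pow_mem _ h)

lemma val_scalar_mul (p q : S) (n : ℕ) (r F : S) (hF : F ∈ P ^ n) :
    val p q n (r * F) = rho r * val p q n F := by
  have k1 := (val_mul p q 0 n r F (by simp) hF).1
  rwa [zero_add, val_zero_eq] at k1

lemma Xt_le_Sat_step2 (n : ℕ) (F : S) (hF : F ∈ Xt (n + 1)) (hF' : F ∈ P ^ (5 * (n + 1) + 1)) :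
    F ∈ Sat (n + 1) := by
  obtain ⟨_, _, _, h3⟩ := hF
  generalize ht : n + 1 = t at *
  have r1 : rho (val 1 0 (5 * t + 1) F) = val 1 0 (5 * t + 1) F :=
    rho_val 1 0 (map_one _) (map_zero _) _ _
  have r2 : rho (val 0 1 (5 * t + 1) F) = val 0 1 (5 * t + 1) F :=
    rho_val 0 1 (map_zero _) (map_one _) _ _
  have ru1 : rho (u1 ^ t) = u1 ^ t := by rw [map_pow, rho_u1]
  have ru2 : rho (u2 ^ t) = u2 ^ t := by rw [map_pow, rho_u2]
  have v1 := val_f0_pow_1 t
  have v2 := val_f0_pow_2 t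
  have v3 := val_f0_pow_3 t
  have e1 := wu3 t
  have e2 := wu2 t
  have hne : (w3 : S) ^ t ≠ 0 := pow_ne_zero _ vd_ne
  have hfS := f0_pow_mem_Sat t
  have hfP := f0_pow_mem_P t
  have n1 := u_pow_notMem u1_notMem t
  have n2 := u_pow_notMem u2_notMem t
  generalize (u1 : S) ^ t = U1 at *
  generalize (u2 : S) ^ t = U2 at *
  generalize (u3 : S) ^ t = U3 at *
  generalize (w1 : S) ^ t = W1 at *
  generalize (w2 : S) ^ t = W2 at *
  generalize (w3 : S) ^ t = W3 at *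
  generalize (f0 : S) ^ t = f at *
  generalize hψ1 : val 1 0 (5 * t + 1) F = ψ1 at *
  generalize hψ2 : val 0 1 (5 * t + 1) F = ψ2 at *
  have hLP : U2 * ψ1 * vx + U1 * ψ2 * vy ∈ P ^ 1 := by
    rw [pow_one]
    exact add_mem (Ideal.mul_mem_left _ _ hx) (Ideal.mul_mem_left _ _ hy)
  have hLv : ∀ p q : S, val p q 1 (U2 * ψ1 * vx + U1 * ψ2 * vy) = U2 * ψ1 * p + U1 * ψ2 * q := by
    intro p q
    have k1 := val_scalar_mul p q 1 (U2 * ψ1) vx (by simpa using hx)
    have k2 := val_scalar_mul p q 1 (U1 * ψ2) vy (by simpa using hy)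
    have e1 : val p q 1 vx = p := by simp [val]
    have e2 : val p q 1 vy = q := by simp [val]
    rw [val_add, k1, k2, e1, e2, map_mul, map_mul, ru1, ru2, r1, r2]
  generalize U2 * ψ1 * vx + U1 * ψ2 * vy = L at *
  have hHP : U1 * U2 * F + L * f ∈ P ^ (5 * t + 1) := by
    refine add_mem (Ideal.mul_mem_left _ _ hF') ?_
    rw [add_comm, pow_add]
    exact Ideal.mul_mem_mul hLP hfP
  have hHv : ∀ p q : S, val p q (5 * t + 1) (U1 * U2 * F + L * f) =
      U1 * U2 * val p q (5 * t + 1) F + (U2 * ψ1 * p + U1 * ψ2 * q) * val p q (5 * t) f := by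
    intro p q
    have k1 := val_scalar_mul p q (5 * t + 1) (U1 * U2) F hF'
    have k2 := (val_mul p q 1 (5 * t) L f hLP hfP).1
    rw [val_add, k1, add_comm (5 * t) 1, k2, hLv, map_mul, ru1, ru2]
  have hm := vals_zero (5 * n + 3) (U1 * U2 * F + L * f)
    (by rw [← ht] at hHP; exact hHP) ?_ ?_ ?_
  · obtain ⟨A, hA, B, hB, hAB⟩ := Submodule.mem_sup.1 hm
    have hHS : U1 * U2 * F + L * f ∈ Sat t := by
      rw [← hAB, ← ht]
      refine add_mem (gP_le_Sat n ?_) (P_pow_le_Sat n hB)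
      have : Ideal.span {g} * P ^ (5 * n + 3) ≤ Ideal.span {g} * P ^ (5 * n + 2) :=
        Ideal.mul_mono_right (Ideal.pow_le_pow_right (by omega))
      exact this hA
    have hfS' : L * f ∈ Sat t := Ideal.mul_mem_left _ _ hfS
    have h4 : U1 * U2 * F ∈ Sat t := by
      have := sub_mem hHS hfS'
      rwa [add_sub_cancel_right] at this
    exact Sat_of_mul t _ F (P_prime.mul_notMem n1 n2) h4
  · have := hHv 1 0
    rw [v1, hψ1] at this
    rw [show 5 * n + 3 + 3 = 5 * t + 1 by omega, this]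
    have := add_self (U1 * U2 * ψ1)
    linear_combination this
  · have := hHv 0 1
    rw [v2, hψ2] at this
    rw [show 5 * n + 3 + 3 = 5 * t + 1 by omega, this]
    have := add_self (U1 * U2 * ψ2)
    linear_combination this
  · have := hHv 1 1
    rw [v3] at this
    rw [show 5 * n + 3 + 3 = 5 * t + 1 by omega, this]
    apply mul_left_cancel₀ hne
    rw [mul_zero]
    exact alg3 _ _ _ _ _ _ _ _ _ e1 e2 h3

lemma Xt_le_Sat_succ (n : ℕ) : Xt (n + 1) ≤ Sat (n + 1) := by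
  intro F hF
  have hFX := hF
  obtain ⟨hFP, h1, h2, _⟩ := hF
  have hgX : Ideal.span {g} * P ^ (5 * n + 2) ≤ Xt (n + 1) := gP_le_Xt _ _ (by omega)
  have hgS := gP_le_Sat n
  have hstep := Xt_le_Sat_step2 n
  generalize ht : n + 1 = t at *
  have r1 : rho (val 1 0 (5 * t) F) = val 1 0 (5 * t) F :=
    rho_val 1 0 (map_one _) (map_zero _) _ _
  have ru1 : rho (u1 ^ t) = u1 ^ t := by rw [map_pow, rho_u1]
  have v1 := val_f0_pow_1 t
  have v2 := val_f0_pow_2 t
  have v3 := val_f0_pow_3 t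
  have e1 := wu3 t
  have e2 := wu2 t
  have hne3 : (w3 : S) ^ t ≠ 0 := pow_ne_zero _ vd_ne
  have hne2 : (w2 : S) ^ t ≠ 0 := pow_ne_zero _ (mul_ne_zero va_ne vb_ne)
  have hfS := f0_pow_mem_Sat t
  have hfX := f0_pow_mem_Xt t
  have hfP := f0_pow_mem_P t
  have n1 := u_pow_notMem u1_notMem t
  generalize (u1 : S) ^ t = U1 at *
  generalize (u2 : S) ^ t = U2 at *
  generalize (u3 : S) ^ t = U3 at *
  generalize (w1 : S) ^ t = W1 at *
  generalize (w2 : S) ^ t = W2 at *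
  generalize (w3 : S) ^ t = W3 at *
  generalize (f0 : S) ^ t = f at *
  generalize hφ1 : val 1 0 (5 * t) F = φ1 at *
  have hHP : U1 * F + φ1 * f ∈ P ^ (5 * t) :=
    add_mem (Ideal.mul_mem_left _ _ hFP) (Ideal.mul_mem_left _ _ hfP)
  have hHX : U1 * F + φ1 * f ∈ Xt t :=
    add_mem (Ideal.mul_mem_left _ _ hFX) (Ideal.mul_mem_left _ _ hfX)
  have hHv : ∀ p q : S, val p q (5 * t) (U1 * F + φ1 * f) =
      U1 * val p q (5 * t) F + φ1 * val p q (5 * t) f := by
    intro p q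
    have k1 := val_scalar_mul p q (5 * t) U1 F hFP
    have k2 := val_scalar_mul p q (5 * t) φ1 f hfP
    rw [val_add, k1, k2, ru1, r1]
  have hm := vals_zero (5 * n + 2) (U1 * F + φ1 * f)
    (by rw [← ht] at hHP; exact hHP) ?_ ?_ ?_
  · obtain ⟨A, hA, B, hB, hAB⟩ := Submodule.mem_sup.1 hm
    have hBX : B ∈ Xt t := by
      have : B = (U1 * F + φ1 * f) - A := by rw [← hAB]; ring
      rw [this]
      exact sub_mem hHX (hgX hA)
    have hBP : B ∈ P ^ (5 * t + 1) := by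
      rw [show 5 * t + 1 = 5 * n + 2 + 4 by omega]; exact hB
    have hBS : B ∈ Sat t := hstep B hBX hBP
    have hHS : U1 * F + φ1 * f ∈ Sat t := by
      rw [← hAB]; exact add_mem (hgS hA) hBS
    have hfS' : φ1 * f ∈ Sat t := Ideal.mul_mem_left _ _ hfS
    have h4 : U1 * F ∈ Sat t := by
      have := sub_mem hHS hfS'
      rwa [add_sub_cancel_right] at this
    exact Sat_of_mul t _ F n1 h4
  · rw [show 5 * n + 2 + 3 = 5 * t by omega, hHv, v1, hφ1]
    have := add_self (U1 * φ1)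
    linear_combination this
  · rw [show 5 * n + 2 + 3 = 5 * t by omega, hHv, v2]
    apply mul_left_cancel₀ hne2
    have := add_self (W1 * U1 * φ1)
    linear_combination this - U1 * h1 + φ1 * e2
  · rw [show 5 * n + 2 + 3 = 5 * t by omega, hHv, v3]
    apply mul_left_cancel₀ hne3
    have := add_self (W1 * U1 * φ1)
    linear_combination this - U1 * h2 + φ1 * e1

lemma Xt_le_Sat (t : ℕ) : Xt t ≤ Sat t := by
  cases t with
  | zero =>
    intro F _
    refine ⟨1, by rw [← Ideal.ne_top_iff_one]; exact P_prime.ne_top, by simp⟩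
  | succ n => exact Xt_le_Sat_succ n

/-- The main identification: `Xt t` is the `t`-th symbolic power of `Q` (with respect to `P`). -/
theorem mem_Xt_iff (t : ℕ) (F : S) : F ∈ Xt t ↔ ∃ s, s ∉ P ∧ s * F ∈ Q ^ t := by
  constructor
  · intro h; exact Xt_le_Sat t h
  · rintro ⟨s, hs, h⟩
    exact Xt_primary t s F hs (Q_pow_le_Xt t h)

end

end Pool.Agent.P0d2d15
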