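import Pool.Agent.Lib.P0d2d15.Basic

set_option autoImplicit false

/-!
The ideal `Q`, the explicit ideals `Xt t`, and the proof that `Xt t` is the `t`-th symbolic power.
-/

namespace Pool.Agent.P0d2d15

open MvPolynomial

noncomputable section

abbrev u1 : S := vb * vd
abbrev u2 : S := va * vd
abbrev u3 : S := va ^ 2 * vb
abbrev w1 : S := va ^ 2
abbrev w2 : S := va * vb
abbrev w3 : S := vd

/-- the product of the three linear forms. -/
abbrev g : S := vx * vy * (vx + vy)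

/-- the form of `(x,y)`-degree five with values `u1,u2,u3`. -/
abbrev f0 : S := u1 * vx ^ 5 + u2 * vy ^ 5 + (u1 + u2 + u3) * (vx ^ 4 * vy)

lemma ev_f0_1 : ev 1 0 f0 = Polynomial.C u1 * Polynomial.X ^ 5 := by
  simp only [f0, map_add, map_mul, map_pow, ev_a, ev_b, ev_c, ev_x, ev_y]
  simp

lemma ev_f0_2 : ev 0 1 f0 = Polynomial.C u2 * Polynomial.X ^ 5 := by
  simp only [f0, map_add, map_mul, map_pow, ev_a, ev_b, ev_c, ev_x, ev_y]
  simp

lemma ev_f0_3 : ev 1 1 f0 = Polynomial.C u3 * Polynomial.X ^ 5 := by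
  have h2 : (2 : Polynomial S) = 0 := by
    have := congrArg (Polynomial.C (R := S)) two_eq_zero
    rwa [map_ofNat, map_zero] at this
  simp only [f0, map_add, map_mul, map_pow, ev_a, ev_b, ev_c, ev_x, ev_y]
  simp only [map_one, one_mul]
  linear_combination ((Polynomial.C vb * (Polynomial.C vb ^ 2 + Polynomial.C va * Polynomial.C vc))
    * Polynomial.X ^ 5 +
    (Polynomial.C va * (Polynomial.C vb ^ 2 + Polynomial.C va * Polynomial.C vc))
    * Polynomial.X ^ 5) * h2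

lemma ev_g_1 : ev 1 0 g = 0 := by
  simp only [g, map_add, map_mul, ev_x, ev_y]
  simp

lemma ev_g_2 : ev 0 1 g = 0 := by
  simp only [g, map_add, map_mul, ev_x, ev_y]
  simp

lemma ev_g_3 : ev 1 1 g = 0 := by
  have h2 : (2 : Polynomial S) = 0 := by
    have := congrArg (Polynomial.C (R := S)) two_eq_zero
    rwa [map_ofNat, map_zero] at this
  simp only [g, map_add, map_mul, ev_x, ev_y]
  simp only [map_one, one_mul]
  linear_combination Polynomial.X ^ 3 * h2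

lemma coeff_aux (r : S) (t : ℕ) :
    ((Polynomial.C r * Polynomial.X ^ 5) ^ t).coeff (5 * t) = r ^ t := by
  rw [mul_pow, ← pow_mul, ← map_pow, Polynomial.coeff_C_mul_X_pow, if_pos rfl]

lemma coeff_aux' (r : S) (t : ℕ) :
    ((Polynomial.C r * Polynomial.X ^ 5) ^ t).coeff (5 * t + 1) = 0 := by
  rw [mul_pow, ← pow_mul, ← map_pow, Polynomial.coeff_C_mul_X_pow, if_neg (by omega)]

lemma val_f0_pow_1 (t : ℕ) : val 1 0 (5 * t) (f0 ^ t) = u1 ^ t := by
  rw [val, map_pow, ev_f0_1, coeff_aux]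

lemma val_f0_pow_2 (t : ℕ) : val 0 1 (5 * t) (f0 ^ t) = u2 ^ t := by
  rw [val, map_pow, ev_f0_2, coeff_aux]

lemma val_f0_pow_3 (t : ℕ) : val 1 1 (5 * t) (f0 ^ t) = u3 ^ t := by
  rw [val, map_pow, ev_f0_3, coeff_aux]

lemma val_f0_pow_succ_1 (t : ℕ) : val 1 0 (5 * t + 1) (f0 ^ t) = 0 := by
  rw [val, map_pow, ev_f0_1, coeff_aux']

lemma val_f0_pow_succ_2 (t : ℕ) : val 0 1 (5 * t + 1) (f0 ^ t) = 0 := by
  rw [val, map_pow, ev_f0_2, coeff_aux']

lemma val_f0_pow_succ_3 (t : ℕ) : val 1 1 (5 * t + 1) (f0 ^ t) = 0 := by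
  rw [val, map_pow, ev_f0_3, coeff_aux']

/-- The three-point conditions for an element. -/
def Cond (t : ℕ) (F : S) : Prop :=
  w1 ^ t * val 1 0 (5 * t) F = w2 ^ t * val 0 1 (5 * t) F ∧
  w1 ^ t * val 1 0 (5 * t) F = w3 ^ t * val 1 1 (5 * t) F ∧
  w1 ^ t * val 1 0 (5 * t + 1) F + w2 ^ t * val 0 1 (5 * t + 1) F +
    w3 ^ t * val 1 1 (5 * t + 1) F = 0

/-- The explicit ideal, to be identified with the symbolic power. -/
def Xt (t : ℕ) : Ideal S where
  carrier := {F | F ∈ P ^ (5 * t) ∧ Cond t F}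
  add_mem' := by
    rintro F G ⟨hF, h1, h2, h3⟩ ⟨hG, k1, k2, k3⟩
    refine ⟨add_mem hF hG, ?_, ?_, ?_⟩
    · simp only [val_add]; linear_combination h1 + k1
    · simp only [val_add]; linear_combination h2 + k2
    · simp only [val_add]; linear_combination h3 + k3
  zero_mem' := by
    refine ⟨zero_mem _, ?_, ?_, ?_⟩ <;> simp [val_zero]
  smul_mem' := by
    rintro H F ⟨hF, h1, h2, h3⟩
    have key : ∀ p q : S, val p q (5 * t) (H * F) = rho H * val p q (5 * t) F ∧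
        val p q (5 * t + 1) (H * F) =
          rho H * val p q (5 * t + 1) F + val p q 1 H * val p q (5 * t) F := by
      intro p q
      have := val_mul p q 0 (5 * t) H F (by simp) hF
      simpa [val_zero_eq] using this
    refine ⟨Ideal.mul_mem_left _ _ hF, ?_, ?_, ?_⟩
    · simp only [smul_eq_mul, (key _ _).1]; linear_combination rho H * h1
    · simp only [smul_eq_mul, (key _ _).1]; linear_combination rho H * h2
    · simp only [smul_eq_mul, (key _ _).2]
      have hs := val_one_sum H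
      linear_combination rho H * h3 + w1 ^ t * val 1 0 (5 * t) F * hs -
        val 0 1 1 H * h1 - val 1 1 1 H * h2

lemma mem_Xt (t : ℕ) (F : S) : F ∈ Xt t ↔ F ∈ P ^ (5 * t) ∧ Cond t F := Iff.rfl

lemma Xt_mul (s t : ℕ) (F G : S) (hF : F ∈ Xt s) (hG : G ∈ Xt t) : F * G ∈ Xt (s + t) := by
  obtain ⟨hF, h1, h2, h3⟩ := hF
  obtain ⟨hG, k1, k2, k3⟩ := hG
  have key : ∀ p q : S, val p q (5 * (s + t)) (F * G) = val p q (5 * s) F * val p q (5 * t) G ∧
      val p q (5 * (s + t) + 1) (F * G) =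
        val p q (5 * s) F * val p q (5 * t + 1) G +
        val p q (5 * s + 1) F * val p q (5 * t) G := by
    intro p q
    have := val_mul p q (5 * s) (5 * t) F G hF hG
    rwa [← mul_add] at this
  refine ⟨?_, ?_, ?_, ?_⟩
  · rw [mul_add, pow_add]; exact Ideal.mul_mem_mul hF hG
  · simp only [(key _ _).1, pow_add]
    linear_combination w1 ^ t * val 1 0 (5 * t) G * h1 + w2 ^ s * val 0 1 (5 * s) F * k1
  · simp only [(key _ _).1, pow_add]
    linear_combination w1 ^ t * val 1 0 (5 * t) G * h2 + w3 ^ s * val 1 1 (5 * s) F * k2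
  · simp only [(key _ _).2, pow_add]
    linear_combination
      w1 ^ s * val 1 0 (5 * s) F * k3 - w2 ^ t * val 0 1 (5 * t + 1) G * h1
      - w3 ^ t * val 1 1 (5 * t + 1) G * h2
      + w1 ^ t * val 1 0 (5 * t) G * h3 - w2 ^ s * val 0 1 (5 * s + 1) F * k1
      - w3 ^ s * val 1 1 (5 * s + 1) F * k2

lemma f0_mem_P : f0 ∈ P ^ 5 := by
  have hx := hx
  have hy := hy
  refine add_mem (add_mem ?_ ?_) ?_
  · exact Ideal.mul_mem_left _ _ (Ideal.pow_mem_pow hx 5)
  · exact Ideal.mul_mem_left _ _ (Ideal.pow_mem_pow hy 5)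
  · refine Ideal.mul_mem_left _ _ ?_
    exact Ideal.mul_mem_mul (Ideal.pow_mem_pow hx 4) hy

lemma f0_pow_mem_P (t : ℕ) : f0 ^ t ∈ P ^ (5 * t) := by
  rw [pow_mul]; exact Ideal.pow_mem_pow f0_mem_P t

lemma f0_pow_mem_Xt (t : ℕ) : f0 ^ t ∈ Xt t := by
  refine ⟨f0_pow_mem_P t, ?_, ?_, ?_⟩
  · rw [val_f0_pow_1, val_f0_pow_2, ← mul_pow, ← mul_pow]
    congr 1; ring
  · rw [val_f0_pow_1, val_f0_pow_3, ← mul_pow, ← mul_pow]
    congr 1; ring
  · rw [val_f0_pow_succ_1, val_f0_pow_succ_2, val_f0_pow_succ_3]; simp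

lemma g_mem_P : g ∈ P ^ 3 := by
  have hx := hx
  have hy := hy
  have h : g ∈ P * P * P := Ideal.mul_mem_mul (Ideal.mul_mem_mul hx hy) (add_mem hx hy)
  have e : P ^ 3 = P * P * P := by ring
  rwa [e]

/-- Anything in `P^{5t}` divisible by `g` is in `Xt t`. -/
lemma g_mul_mem_Xt (t : ℕ) (H : S) (h : g * H ∈ P ^ (5 * t)) : g * H ∈ Xt t := by
  have v1 : ∀ n, val 1 0 n (g * H) = 0 := by intro n; rw [val, map_mul, ev_g_1]; simp
  have v2 : ∀ n, val 0 1 n (g * H) = 0 := by intro n; rw [val, map_mul, ev_g_2]; simp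
  have v3 : ∀ n, val 1 1 n (g * H) = 0 := by intro n; rw [val, map_mul, ev_g_3]; simp
  refine ⟨h, ?_, ?_, ?_⟩
  · rw [v1, v2]; simp
  · rw [v1, v3]; simp
  · rw [v1, v2, v3]; simp

lemma P_pow_le_Xt (t : ℕ) : P ^ (5 * t + 2) ≤ Xt t := by
  intro F hF
  refine ⟨Ideal.pow_le_pow_right (by omega) hF, ?_, ?_, ?_⟩
  · rw [val_eq_zero 1 0 _ _ F hF (by omega), val_eq_zero 0 1 _ _ F hF (by omega)]; simp
  · rw [val_eq_zero 1 0 _ _ F hF (by omega), val_eq_zero 1 1 _ _ F hF (by omega)]; simp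
  · rw [val_eq_zero 1 0 _ _ F hF (by omega), val_eq_zero 0 1 _ _ F hF (by omega),
      val_eq_zero 1 1 _ _ F hF (by omega)]; simp

/-- The ideal of the counterexample. -/
def Q : Ideal S := Ideal.span {f0} ⊔ Ideal.span {g} * P ^ 2 ⊔ P ^ 7

lemma f0_mem_Q : f0 ∈ Q :=
  Ideal.mem_sup_left (Ideal.mem_sup_left (Ideal.mem_span_singleton_self _))

lemma gP2_le_Q : Ideal.span {g} * P ^ 2 ≤ Q := le_sup_right.trans le_sup_left

lemma P7_le_Q : P ^ 7 ≤ Q := le_sup_right

lemma gP_le_Xt (t m : ℕ) (h : 5 * t ≤ m + 3) : Ideal.span {g} * P ^ m ≤ Xt t := by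
  intro F hF
  obtain ⟨H, hH, rfl⟩ := Ideal.mem_span_singleton_mul.1 hF
  apply g_mul_mem_Xt
  refine Ideal.pow_le_pow_right h ?_
  rw [add_comm, pow_add]
  exact Ideal.mul_mem_mul g_mem_P hH

lemma Q_le_Xt : Q ≤ Xt 1 := by
  refine sup_le (sup_le ?_ ?_) ?_
  · rw [Ideal.span_singleton_le_iff_mem]
    simpa using f0_pow_mem_Xt 1
  · exact gP_le_Xt 1 2 (by norm_num)
  · exact P_pow_le_Xt 1

lemma Q_pow_le_Xt (t : ℕ) : Q ^ t ≤ Xt t := by
  induction t with
  | zero =>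
    intro F _
    have : (1 : S) ∈ Xt 0 := by simpa using f0_pow_mem_Xt 0
    rw [(Ideal.eq_top_iff_one _).2 this]
    trivial
  | succ n ih =>
    rw [pow_succ]
    exact Ideal.mul_le.2 (fun F hF G hG => Xt_mul n 1 F G (ih hF) (Q_le_Xt hG))

lemma w1_ne : (w1 : S) ≠ 0 := by
  simp [X_ne_zero]

lemma Xt_primary (t : ℕ) (s F : S) (hs : s ∉ P) (h : s * F ∈ Xt t) : F ∈ Xt t := by
  obtain ⟨h0, h1, h2, h3⟩ := h
  have hF : F ∈ P ^ (5 * t) := primary s F _ hs h0
  have hr : rho s ≠ 0 := by rwa [ne_eq, ← mem_P_iff]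
  have key : ∀ p q : S, val p q (5 * t) (s * F) = rho s * val p q (5 * t) F ∧
      val p q (5 * t + 1) (s * F) =
        rho s * val p q (5 * t + 1) F + val p q 1 s * val p q (5 * t) F := by
    intro p q
    have := val_mul p q 0 (5 * t) s F (by simp) hF
    simpa [val_zero_eq] using this
  simp only [(key _ _).1, (key _ _).2] at h1 h2 h3
  have k1 : w1 ^ t * val 1 0 (5 * t) F = w2 ^ t * val 0 1 (5 * t) F := by
    apply mul_left_cancel₀ hr
    linear_combination h1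
  have k2 : w1 ^ t * val 1 0 (5 * t) F = w3 ^ t * val 1 1 (5 * t) F := by
    apply mul_left_cancel₀ hr
    linear_combination h2
  refine ⟨hF, k1, k2, ?_⟩
  apply mul_left_cancel₀ hr
  have hs := val_one_sum s
  linear_combination h3 - w1 ^ t * val 1 0 (5 * t) F * hs + val 0 1 1 s * k1 + val 1 1 1 s * k2

end

end Pool.Agent.P0d2d15
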